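import Pool.Agent.H32R3.ND.Zon

set_option autoImplicit false

open Set Filter Topology InnerProductSpace Laplacian MeasureTheory Metric

namespace H32R3.ND

/-- In finite dimension the convex hull of a compact set is compact. -/
theorem compact_hull {V : Type} [NormedAddCommGroup V] [NormedSpace ℝ V] [FiniteDimensional ℝ V]
    {K : Set V} (hK : IsCompact K) : IsCompact (convexHull ℝ K) := by
  classical
  rcases K.eq_empty_or_nonempty with rfl | ⟨k0, hk0⟩
  · simp
  set d := Module.finrank ℝ V + 1 with hd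
  let F : (Fin d → ℝ) × (Fin d → V) → V := fun p => ∑ i, p.1 i • p.2 i
  have hFc : Continuous F := by fun_prop
  have hC : IsCompact (stdSimplex ℝ (Fin d) ×ˢ (Set.pi univ (fun _ : Fin d => K))) :=
    (isCompact_stdSimplex ℝ (Fin d)).prod (isCompact_univ_pi (fun _ => hK))
  have heq : convexHull ℝ K = F '' (stdSimplex ℝ (Fin d) ×ˢ (Set.pi univ (fun _ : Fin d => K))) := by
    apply Set.Subset.antisymm
    · intro x hx
      obtain ⟨ι, hι, z, w, hz, hind, hw, hw1, hwz⟩ := eq_pos_convex_span_of_mem_convexHull hx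
      have hcard : Fintype.card ι ≤ d := by
        have h1 := hind.card_le_finrank_succ
        have h2 : Module.finrank ℝ (vectorSpan ℝ (Set.range z)) ≤ Module.finrank ℝ V :=
          Submodule.finrank_le _
        omega
      obtain ⟨e⟩ : Nonempty (ι ↪ Fin d) :=
        Function.Embedding.nonempty_of_card_le (by simpa using hcard)
      let W : Fin d → ℝ := fun l => ∑ i, if e i = l then w i else 0
      let Y : Fin d → V := fun l => if h : ∃ i, e i = l then z h.choose else k0
      have hY : ∀ i, Y (e i) = z i := by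
        intro i
        have h : ∃ j, e j = e i := ⟨i, rfl⟩
        simp only [Y, dif_pos h]
        rw [e.injective h.choose_spec]
      refine ⟨(W, Y), ⟨⟨?_, ?_⟩, ?_⟩, ?_⟩
      · intro l
        exact Finset.sum_nonneg fun i _ => by
          split_ifs
          · exact (hw i).le
          · exact le_refl _
      · simp only [W]
        rw [Finset.sum_comm]
        simp [hw1]
      · intro l _
        by_cases h : ∃ i, e i = l
        · obtain ⟨i, rfl⟩ := h
          show Y (e i) ∈ K
          rw [hY]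
          exact hz ⟨i, rfl⟩
        · show Y l ∈ K
          simp only [Y, dif_neg h]
          exact hk0
      · show ∑ l, W l • Y l = x
        simp only [W, Finset.sum_smul, ite_smul, zero_smul]
        rw [Finset.sum_comm, ← hwz]
        refine Finset.sum_congr rfl fun i _ => ?_
        rw [Finset.sum_ite_eq Finset.univ (e i), if_pos (Finset.mem_univ _), hY]
    · rintro _ ⟨⟨w, z⟩, ⟨hw, hz⟩, rfl⟩
      exact (convex_convexHull ℝ K).sum_mem (fun i _ => hw.1 i) hw.2
        (fun i _ => subset_convexHull ℝ K (hz i (mem_univ i)))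
  rw [heq]
  exact hC.image hFc

variable {n : ℕ}

/-- normalised volume of the unit ball -/
noncomputable def nu (n : ℕ) : Measure (EuclideanSpace ℝ (Fin n)) :=
  (volume (ball (0 : EuclideanSpace ℝ (Fin n)) 1))⁻¹ • volume.restrict (ball 0 1)

theorem ball_pos (n : ℕ) : volume (ball (0 : EuclideanSpace ℝ (Fin n)) 1) ≠ 0 :=
  (measure_ball_pos _ _ one_pos).ne'

theorem ball_fin (n : ℕ) : volume (ball (0 : EuclideanSpace ℝ (Fin n)) 1) ≠ ⊤ :=
  measure_ball_lt_top.ne

instance : IsProbabilityMeasure (nu n) := by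
  constructor
  unfold nu
  rw [Measure.smul_apply, Measure.restrict_apply_univ, smul_eq_mul]
  exact ENNReal.inv_mul_cancel (ball_pos n) (ball_fin n)

/-- direction of a vector -/
noncomputable def dir (y : EuclideanSpace ℝ (Fin n)) : EuclideanSpace ℝ (Fin n) := ‖y‖⁻¹ • y

theorem measurable_dir : Measurable (dir (n := n)) := by
  unfold dir
  fun_prop

theorem norm_dir_le (y : EuclideanSpace ℝ (Fin n)) : ‖dir y‖ ≤ 1 := by
  unfold dir
  rw [norm_smul, norm_inv, norm_norm]
  by_cases h : ‖y‖ = 0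
  · rw [h]; simp
  · rw [inv_mul_cancel₀ h]

theorem norm_dir {y : EuclideanSpace ℝ (Fin n)} (h : y ≠ 0) : ‖dir y‖ = 1 := by
  unfold dir
  rw [norm_smul, norm_inv, norm_norm]
  exact inv_mul_cancel₀ (norm_ne_zero_iff.2 h)

theorem nu_map (R : EuclideanSpace ℝ (Fin n) ≃ₗᵢ[ℝ] EuclideanSpace ℝ (Fin n)) :
    MeasurePreserving R (nu n) (nu n) := by
  unfold nu
  have h1 : MeasurePreserving R (volume.restrict (ball (0 : EuclideanSpace ℝ (Fin n)) 1))
      (volume.restrict (ball (0 : EuclideanSpace ℝ (Fin n)) 1)) := by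
    have h2 := R.measurePreserving.restrict_preimage (s := ball (0 : EuclideanSpace ℝ (Fin n)) 1)
      measurableSet_ball
    rw [R.preimage_ball, map_zero] at h2
    exact h2
  exact h1.smul_measure _

/-- moments of the uniform distribution on the sphere -/
noncomputable def mom (m : ℕ) (x : EuclideanSpace ℝ (Fin n)) : ℝ :=
  ∫ y, (inner ℝ x (dir y)) ^ m ∂(nu n)

theorem dir_map (R : EuclideanSpace ℝ (Fin n) ≃ₗᵢ[ℝ] EuclideanSpace ℝ (Fin n))
    (y : EuclideanSpace ℝ (Fin n)) : dir (R y) = R (dir y) := by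
  unfold dir
  rw [R.norm_map, map_smul]

theorem mom_rot (m : ℕ) (R : EuclideanSpace ℝ (Fin n) ≃ₗᵢ[ℝ] EuclideanSpace ℝ (Fin n))
    (x : EuclideanSpace ℝ (Fin n)) : mom m (R x) = mom m x := by
  unfold mom
  have h := (nu_map R).integral_comp R.toHomeomorph.measurableEmbedding
    (fun y => (inner ℝ (R x) (dir y)) ^ m)
  rw [← h]
  refine integral_congr_ae (Filter.Eventually.of_forall fun y => ?_)
  show inner ℝ (R x) (dir (R y)) ^ m = _
  rw [dir_map, R.inner_map_map]

theorem mom_smul (m : ℕ) (l : ℝ) (x : EuclideanSpace ℝ (Fin n)) :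
    mom m (l • x) = l ^ m * mom m x := by
  unfold mom
  rw [← integral_const_mul]
  refine integral_congr_ae (Filter.Eventually.of_forall fun y => ?_)
  simp only [inner_smul_left, mul_pow, conj_trivial]

theorem mom_eq {e : EuclideanSpace ℝ (Fin n)} (he : ‖e‖ = 1) (m : ℕ)
    (x : EuclideanSpace ℝ (Fin n)) : mom m x = ‖x‖ ^ m * mom m e := by
  rw [← mom_smul]
  have h : ‖‖x‖ • e‖ = ‖x‖ := by rw [norm_smul, he, mul_one, norm_norm]
  have h2 := Submodule.reflection_sub h
  rw [← mom_rot m (Submodule.reflection (ℝ ∙ (‖x‖ • e - x))ᗮ) (‖x‖ • e), h2]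

theorem mom_odd {m : ℕ} (hm : Odd m) (x : EuclideanSpace ℝ (Fin n)) : mom m x = 0 := by
  have h1 := mom_rot m (LinearIsometryEquiv.neg ℝ) x
  have h2 : mom m ((LinearIsometryEquiv.neg ℝ) x) = - mom m x := by
    have : (LinearIsometryEquiv.neg ℝ) x = (-1 : ℝ) • x := by simp
    rw [this, mom_smul, hm.neg_one_pow]
    ring
  linarith

/-- evaluation of all monomials of degree `< k` -/
noncomputable def Psi (n k : ℕ) (ξ : EuclideanSpace ℝ (Fin n)) :
    (Σ m : Fin k, (Fin m → Fin n)) → ℝ := fun p => ∏ j, ξ (p.2 j)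

theorem Psi_continuous (n k : ℕ) : Continuous (Psi n k) := by
  unfold Psi
  fun_prop

theorem inner_pow_eq (m : ℕ) (x ξ : EuclideanSpace ℝ (Fin n)) :
    (inner ℝ x ξ) ^ m = ∑ f : Fin m → Fin n, (∏ j, x (f j)) * ∏ j, ξ (f j) := by
  have h1 : (inner ℝ x ξ : ℝ) = ∑ i, x i * ξ i := by
    rw [PiLp.inner_apply]
    refine Finset.sum_congr rfl fun i _ => ?_
    simp [mul_comm]
  rw [h1, Fintype.sum_pow]
  refine Finset.sum_congr rfl fun f _ => ?_
  rw [Finset.prod_mul_distrib]

theorem exists_design (hn : 0 < n) (k : ℕ) : ∃ (ι : Type) (_ : Fintype ι) (w : ι → ℝ)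
    (ξ : ι → EuclideanSpace ℝ (Fin n)), (∀ i, 0 < w i) ∧ ∑ i, w i = 1 ∧ (∀ i, ‖ξ i‖ = 1) ∧
      Function.Injective ξ ∧ ∀ m < k, ∀ x : EuclideanSpace ℝ (Fin n),
        ∑ i, w i * (inner ℝ x (ξ i)) ^ m = mom m x := by
  classical
  have : Nonempty (Fin n) := ⟨⟨0, hn⟩⟩
  set S : Set (EuclideanSpace ℝ (Fin n)) := sphere 0 1 with hS
  have hK : IsCompact (Psi n k '' S) := (isCompact_sphere _ _).image (Psi_continuous n k)
  obtain ⟨C, hC⟩ := hK.isBounded.exists_norm_le
  have hmem : ∀ᵐ y ∂(nu n), Psi n k (dir y) ∈ Psi n k '' S := by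
    have h0 : ∀ᵐ y ∂(nu n), y ≠ 0 := by
      unfold nu
      apply Measure.ae_smul_measure
      apply ae_restrict_of_ae
      rw [ae_iff]
      simp only [ne_eq, not_not]
      have : {a : EuclideanSpace ℝ (Fin n) | a = 0} = {0} := by ext; simp
      rw [this]
      exact measure_singleton _
    filter_upwards [h0] with y hy
    exact ⟨dir y, by rw [hS, mem_sphere_zero_iff_norm]; exact norm_dir hy, rfl⟩
  have hint : Integrable (fun y => Psi n k (dir y)) (nu n) := by
    refine Integrable.of_bound ((Psi_continuous n k).measurable.comp measurable_dir).aestronglyMeasurable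
      C ?_
    filter_upwards [hmem] with y hy
    exact hC _ hy
  have hz := (convex_convexHull ℝ (Psi n k '' S)).integral_mem (compact_hull hK).isClosed
    (by filter_upwards [hmem] with y hy using subset_convexHull ℝ _ hy) hint
  obtain ⟨ι, hι, z, w, hz1, hind, hw, hw1, hwz⟩ := eq_pos_convex_span_of_mem_convexHull hz
  have hz2 : ∀ i, ∃ ξ ∈ S, Psi n k ξ = z i := fun i => hz1 ⟨i, rfl⟩
  choose ξ hξS hξ using hz2
  refine ⟨ι, hι, w, ξ, hw, hw1, fun i => by simpa [hS] using hξS i, ?_, ?_⟩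
  · intro i j hij
    apply hind.injective
    rw [← hξ i, ← hξ j, hij]
  · intro m hm x
    have h1 : ∀ v : EuclideanSpace ℝ (Fin n), (inner ℝ x v) ^ m =
        ∑ f : Fin m → Fin n, (∏ j, x (f j)) * Psi n k v ⟨⟨m, hm⟩, f⟩ := by
      intro v
      rw [inner_pow_eq]
      rfl
    unfold mom
    simp only [h1]
    rw [integral_finsetSum]
    · have h2 : ∀ f : Fin m → Fin n, ∫ y, (∏ j, x (f j)) * Psi n k (dir y) ⟨⟨m, hm⟩, f⟩ ∂(nu n) =
          (∏ j, x (f j)) * ∑ i, w i * Psi n k (ξ i) ⟨⟨m, hm⟩, f⟩ := by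
        intro f
        rw [integral_const_mul]
        congr 1
        have h3 := congrFun hwz ⟨⟨m, hm⟩, f⟩
        have h4 : (∫ y, Psi n k (dir y) ∂(nu n)) ⟨⟨m, hm⟩, f⟩ =
            ∫ y, Psi n k (dir y) ⟨⟨m, hm⟩, f⟩ ∂(nu n) := by
          have := (ContinuousLinearMap.proj (R := ℝ)
            (φ := fun _ : (Σ m : Fin k, (Fin m → Fin n)) => ℝ) ⟨⟨m, hm⟩, f⟩).integral_comp_comm hint
          exact this.symm
        rw [← h4, ← h3]
        simp only [Finset.sum_apply, Pi.smul_apply, smul_eq_mul]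
        refine Finset.sum_congr rfl fun i _ => ?_
        rw [hξ]
      rw [Finset.sum_congr rfl fun f _ => h2 f]
      simp only [Finset.mul_sum]
      rw [Finset.sum_comm]
      refine Finset.sum_congr rfl fun f _ => Finset.sum_congr rfl fun i _ => ?_
      ring
    · intro f _
      apply Integrable.const_mul
      exact (ContinuousLinearMap.proj (R := ℝ)
            (φ := fun _ : (Σ m : Fin k, (Fin m → Fin n)) => ℝ) ⟨⟨m, hm⟩, f⟩).integrable_comp hint

end H32R3.ND
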