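import Mathlib

set_option autoImplicit false
set_option maxHeartbeats 4000000

open Set Filter Topology MeasureTheory Metric
open scoped NNReal ENNReal

namespace H32R3.ND

variable {n : ℕ}

/-- splitting a sum over `Fin n` into two distinguished indices and the rest -/
theorem sum_split {i0 l : Fin n} (hl : l ≠ i0) (f : Fin n → ℝ) :
    ∑ m, f m = f i0 + f l + ∑ m : {m : Fin n // m ≠ i0 ∧ m ≠ l}, f m := by
  classical
  have h1 : ∑ m : {m : Fin n // m ≠ i0 ∧ m ≠ l}, f m =
      ∑ m ∈ Finset.univ.filter (fun m => m ≠ i0 ∧ m ≠ l), f m := by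
    rw [Finset.sum_subtype (Finset.univ.filter (fun m => m ≠ i0 ∧ m ≠ l))]
    intro x
    simp
  have h2 : Finset.univ.filter (fun m : Fin n => m ≠ i0 ∧ m ≠ l) =
      (Finset.univ.erase i0).erase l := by
    ext x
    simp [and_comm]
  rw [h1, h2, ← Finset.add_sum_erase _ _ (Finset.mem_univ i0),
    ← Finset.add_sum_erase (Finset.univ.erase i0) _ (Finset.mem_erase.2 ⟨hl, Finset.mem_univ l⟩)]
  ring

/-- The key antilipschitz estimate on a piece of the nodal set. -/
theorem piece_bound {i0 l : Fin n} (hl : l ≠ i0)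
    (b : OrthonormalBasis (Fin n) ℝ (EuclideanSpace ℝ (Fin n))) {sg ε1 : ℝ} (hsg : |sg| = 1)
    {M : ℕ} (hM : 1 ≤ M) (hε0 : 0 ≤ ε1) (hε : ε1 * (1 + n * M) ≤ 1 / 2)
    {e e' : EuclideanSpace ℝ (Fin n)} (he : ‖e‖ = 1) (he' : ‖e'‖ = 1)
    {s s' : ℝ} (hs : 0 ≤ s) (hs' : 0 ≤ s')
    (hs2 : s ^ 2 = 1 - (b.repr e i0) ^ 2) (hs2' : s' ^ 2 = 1 - (b.repr e' i0) ^ 2)
    (hsM : 1 / (M : ℝ) ≤ s) (hsM' : 1 / (M : ℝ) ≤ s')
    (hσ : s / n ≤ sg * b.repr e l) (hσ' : s' / n ≤ sg * b.repr e' l)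
    (ht : |b.repr e i0 - b.repr e' i0| ≤ ε1 * ‖e - e'‖)
    {P : ℝ} (hP0 : 0 ≤ P)
    (hP : ∀ m : {m : Fin n // m ≠ i0 ∧ m ≠ l}, |b.repr e m - b.repr e' m| ≤ P) :
    ‖e - e'‖ ≤ 4 * (n : ℝ) ^ 2 * P := by
  set D := ‖e - e'‖ with hD
  have hD0 : 0 ≤ D := norm_nonneg _
  have hn0 : 0 < n := lt_of_le_of_lt (Nat.zero_le _) l.2
  have hn1 : (1 : ℝ) ≤ n := by exact_mod_cast hn0
  have hM1 : (1 : ℝ) ≤ M := by exact_mod_cast hM
  have hMpos : (0 : ℝ) < M := by linarith
  have hss : 2 / (M : ℝ) ≤ s + s' := by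
    have : 2 / (M : ℝ) = 1 / M + 1 / M := by ring
    linarith
  have hss0 : 0 < s + s' := lt_of_lt_of_le (by positivity) hss
  have hsum : ∀ v : EuclideanSpace ℝ (Fin n), ‖v‖ ^ 2 = ∑ m, (b.repr v m) ^ 2 := by
    intro v
    rw [← b.repr.norm_map v, EuclideanSpace.norm_sq_eq]
    refine Finset.sum_congr rfl fun m _ => ?_
    rw [Real.norm_eq_abs, sq_abs]
  have h1 := hsum e
  have h1' := hsum e'
  rw [he, one_pow, sum_split hl] at h1
  rw [he', one_pow, sum_split hl] at h1'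
  have hle : ∀ m : {m : Fin n // m ≠ i0 ∧ m ≠ l}, |b.repr e m| ≤ s := by
    intro m
    apply abs_le_of_sq_le_sq _ hs
    rw [hs2]
    have := Finset.single_le_sum (f := fun m : {m : Fin n // m ≠ i0 ∧ m ≠ l} => (b.repr e m) ^ 2)
      (fun i _ => sq_nonneg _) (Finset.mem_univ m)
    have h3 := sq_nonneg (b.repr e l)
    simp only at this
    linarith
  have hle' : ∀ m : {m : Fin n // m ≠ i0 ∧ m ≠ l}, |b.repr e' m| ≤ s' := by
    intro m
    apply abs_le_of_sq_le_sq _ hs'
    rw [hs2']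
    have := Finset.single_le_sum (f := fun m : {m : Fin n // m ≠ i0 ∧ m ≠ l} => (b.repr e' m) ^ 2)
      (fun i _ => sq_nonneg _) (Finset.mem_univ m)
    have h3 := sq_nonneg (b.repr e' l)
    simp only at this
    linarith
  have habs1 : ∀ v : EuclideanSpace ℝ (Fin n), ‖v‖ = 1 → ∀ m, |b.repr v m| ≤ 1 := by
    intro v hv m
    have h := EuclideanSpace.norm_sq_eq (b.repr v)
    rw [b.repr.norm_map, hv] at h
    have := Finset.single_le_sum (f := fun m : Fin n => ‖b.repr v m‖ ^ 2)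
      (fun i _ => sq_nonneg _) (Finset.mem_univ m)
    simp only at this
    rw [← h, Real.norm_eq_abs, sq_abs, one_pow] at this
    rw [abs_le_one_iff_mul_self_le_one, ← sq]
    exact this
  -- difference of the squares of the distinguished coordinates
  have hcard : (Fintype.card {m : Fin n // m ≠ i0 ∧ m ≠ l} : ℝ) ≤ n := by
    have := Fintype.card_subtype_le (fun m : Fin n => m ≠ i0 ∧ m ≠ l)
    rw [Fintype.card_fin] at this
    exact_mod_cast this
  have h4 : |(b.repr e l - b.repr e' l) * (b.repr e l + b.repr e' l)| ≤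
      2 * (ε1 * D) + n * P * (s + s') := by
    have e1 : (b.repr e l - b.repr e' l) * (b.repr e l + b.repr e' l) =
        -((b.repr e i0 - b.repr e' i0) * (b.repr e i0 + b.repr e' i0)) -
          ∑ m : {m : Fin n // m ≠ i0 ∧ m ≠ l},
            (b.repr e m - b.repr e' m) * (b.repr e m + b.repr e' m) := by
      have e2 : ∑ m : {m : Fin n // m ≠ i0 ∧ m ≠ l},
            (b.repr e m - b.repr e' m) * (b.repr e m + b.repr e' m) =
          (∑ m : {m : Fin n // m ≠ i0 ∧ m ≠ l}, (b.repr e m) ^ 2) -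
          ∑ m : {m : Fin n // m ≠ i0 ∧ m ≠ l}, (b.repr e' m) ^ 2 := by
        rw [← Finset.sum_sub_distrib]
        refine Finset.sum_congr rfl fun m _ => ?_
        ring
      rw [e2]
      linarith
    rw [e1]
    have e3 : |(b.repr e i0 - b.repr e' i0) * (b.repr e i0 + b.repr e' i0)| ≤ 2 * (ε1 * D) := by
      rw [abs_mul]
      have a1 : |b.repr e i0 + b.repr e' i0| ≤ 2 := by
        have := abs_add_le (b.repr e i0) (b.repr e' i0)
        linarith [habs1 e he i0, habs1 e' he' i0]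
      calc |b.repr e i0 - b.repr e' i0| * |b.repr e i0 + b.repr e' i0| ≤ (ε1 * D) * 2 :=
            mul_le_mul ht a1 (abs_nonneg _) (by positivity)
        _ = 2 * (ε1 * D) := by ring
    have e4 : |∑ m : {m : Fin n // m ≠ i0 ∧ m ≠ l},
            (b.repr e m - b.repr e' m) * (b.repr e m + b.repr e' m)| ≤ n * P * (s + s') := by
      calc |∑ m : {m : Fin n // m ≠ i0 ∧ m ≠ l},
            (b.repr e m - b.repr e' m) * (b.repr e m + b.repr e' m)|
          ≤ ∑ m : {m : Fin n // m ≠ i0 ∧ m ≠ l},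
            |(b.repr e m - b.repr e' m) * (b.repr e m + b.repr e' m)| :=
            Finset.abs_sum_le_sum_abs _ _
        _ ≤ ∑ _m : {m : Fin n // m ≠ i0 ∧ m ≠ l}, P * (s + s') := by
            refine Finset.sum_le_sum fun m _ => ?_
            rw [abs_mul]
            refine mul_le_mul (hP m) ?_ (abs_nonneg _) hP0
            exact (abs_add_le _ _).trans (add_le_add (hle m) (hle' m))
        _ = Fintype.card {m : Fin n // m ≠ i0 ∧ m ≠ l} * (P * (s + s')) := by
            rw [Finset.sum_const, Finset.card_univ, nsmul_eq_mul]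
        _ ≤ n * (P * (s + s')) := mul_le_mul_of_nonneg_right hcard (by positivity)
        _ = n * P * (s + s') := by ring
    calc _ ≤ |-((b.repr e i0 - b.repr e' i0) * (b.repr e i0 + b.repr e' i0))| +
          |∑ m : {m : Fin n // m ≠ i0 ∧ m ≠ l},
            (b.repr e m - b.repr e' m) * (b.repr e m + b.repr e' m)| := abs_sub _ _
      _ ≤ _ := by
          rw [abs_neg]
          exact add_le_add e3 e4
  have h5 : (s + s') / n ≤ |b.repr e l + b.repr e' l| := by
    have : (s + s') / n ≤ sg * (b.repr e l + b.repr e' l) := by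
      rw [add_div]; linarith
    refine this.trans ((le_abs_self _).trans ?_)
    rw [abs_mul, hsg, one_mul]
  have h6 : |b.repr e l - b.repr e' l| ≤ n * M * (ε1 * D) + (n : ℝ) ^ 2 * P := by
    rw [abs_mul] at h4
    have a1 : |b.repr e l - b.repr e' l| * ((s + s') / n) ≤ 2 * (ε1 * D) + n * P * (s + s') :=
      (mul_le_mul_of_nonneg_left h5 (abs_nonneg _)).trans h4
    have a2 : |b.repr e l - b.repr e' l| ≤ (2 * (ε1 * D) + n * P * (s + s')) / ((s + s') / n) := by
      rw [le_div_iff₀ (by positivity)]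
      exact a1
    have a3 : (2 * (ε1 * D) + n * P * (s + s')) / ((s + s') / n) =
        n * (2 / (s + s')) * (ε1 * D) + (n : ℝ) ^ 2 * P := by
      field_simp
    have a4 : 2 / (s + s') ≤ M := by
      rw [div_le_iff₀ hss0]
      rw [div_le_iff₀ hMpos] at hss
      linarith
    rw [a3] at a2
    have a5 : n * (2 / (s + s')) * (ε1 * D) ≤ n * M * (ε1 * D) :=
      mul_le_mul_of_nonneg_right (mul_le_mul_of_nonneg_left a4 (by linarith)) (by positivity)
    linarith
  have h7 : D ≤ |b.repr e i0 - b.repr e' i0| + |b.repr e l - b.repr e' l| + n * P := by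
    have a1 : e - e' = ∑ m, (b.repr e m - b.repr e' m) • b m := by
      have := b.sum_repr (e - e')
      rw [← this]
      refine Finset.sum_congr rfl fun m _ => ?_
      rw [map_sub]
      rfl
    have a2 : D ≤ ∑ m, |b.repr e m - b.repr e' m| := by
      rw [hD]
      conv_lhs => rw [a1]
      refine (norm_sum_le _ _).trans (le_of_eq ?_)
      refine Finset.sum_congr rfl fun m _ => ?_
      rw [norm_smul, b.norm_eq_one, mul_one, Real.norm_eq_abs]
    rw [sum_split hl] at a2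
    have a3 : ∑ m : {m : Fin n // m ≠ i0 ∧ m ≠ l}, |b.repr e m - b.repr e' m| ≤ n * P := by
      calc _ ≤ ∑ _m : {m : Fin n // m ≠ i0 ∧ m ≠ l}, P := Finset.sum_le_sum fun m _ => hP m
        _ = Fintype.card {m : Fin n // m ≠ i0 ∧ m ≠ l} * P := by
            rw [Finset.sum_const, Finset.card_univ, nsmul_eq_mul]
        _ ≤ n * P := mul_le_mul_of_nonneg_right hcard hP0
    linarith
  have h8 : ε1 * D + n * M * (ε1 * D) ≤ D / 2 := by
    have : ε1 * D + n * M * (ε1 * D) = ε1 * (1 + n * M) * D := by ring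
    rw [this]
    have := mul_le_mul_of_nonneg_right hε hD0
    linarith
  have h9 : (n : ℝ) * P ≤ (n : ℝ) ^ 2 * P :=
    mul_le_mul_of_nonneg_right (le_self_pow₀ hn1 two_ne_zero) hP0
  linarith

/-- Hausdorff measure of a piece. -/
theorem piece_measure {i0 l : Fin n} (hl : l ≠ i0)
    (b : OrthonormalBasis (Fin n) ℝ (EuclideanSpace ℝ (Fin n)))
    {S : Set (EuclideanSpace ℝ (Fin n))} {K : ℝ≥0} {r : ℝ} (hr : 0 ≤ r)
    (hS1 : ∀ e ∈ S, ∀ m : {m : Fin n // m ≠ i0 ∧ m ≠ l}, |b.repr e m| ≤ r)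
    (hS2 : ∀ e ∈ S, ∀ e' ∈ S, ∀ P : ℝ, 0 ≤ P →
      (∀ m : {m : Fin n // m ≠ i0 ∧ m ≠ l}, |b.repr e m - b.repr e' m| ≤ P) →
      ‖e - e'‖ ≤ K * P) :
    Measure.hausdorffMeasure ((n - 2 : ℕ) : ℝ) S ≤
      (K : ℝ≥0∞) ^ (n - 2) * ENNReal.ofReal ((2 * r) ^ (n - 2)) := by
  classical
  have hcard : Fintype.card {m : Fin n // m ≠ i0 ∧ m ≠ l} = n - 2 := by
    have h1 : Fintype.card {m : Fin n // m ≠ i0 ∧ m ≠ l} =
        (Finset.univ.filter (fun m => m ≠ i0 ∧ m ≠ l)).card := Fintype.card_subtype _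
    have h2 : Finset.univ.filter (fun m : Fin n => m ≠ i0 ∧ m ≠ l) =
        (Finset.univ.erase i0).erase l := by
      ext x
      simp [and_comm]
    rw [h1, h2, Finset.card_erase_of_mem (Finset.mem_erase.2 ⟨hl, Finset.mem_univ l⟩),
      Finset.card_erase_of_mem (Finset.mem_univ i0), Finset.card_univ, Fintype.card_fin]
    omega
  let f : S → ({m : Fin n // m ≠ i0 ∧ m ≠ l} → ℝ) := fun e m => b.repr e m
  have hf : AntilipschitzWith K f := by
    apply AntilipschitzWith.of_le_mul_dist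
    intro x y
    have h1 : dist x y = ‖(x : EuclideanSpace ℝ (Fin n)) - y‖ := by
      rw [Subtype.dist_eq, dist_eq_norm]
    rw [h1]
    refine hS2 x x.2 y y.2 _ dist_nonneg fun m => ?_
    have := dist_le_pi_dist (f x) (f y) m
    rw [Real.dist_eq] at this
    exact this
  have h1 := hf.le_hausdorffMeasure_image (d := ((n - 2 : ℕ) : ℝ)) (Nat.cast_nonneg _) univ
  have h2 : Measure.hausdorffMeasure ((n - 2 : ℕ) : ℝ) S =
      Measure.hausdorffMeasure ((n - 2 : ℕ) : ℝ) (univ : Set S) := by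
    have := isometry_subtype_coe.hausdorffMeasure_image (f := ((↑) : S → EuclideanSpace ℝ (Fin n)))
      (Or.inl (Nat.cast_nonneg (n - 2))) univ
    rw [← this, image_univ, Subtype.range_coe]
  rw [h2]
  refine h1.trans ?_
  have h3 : Measure.hausdorffMeasure ((n - 2 : ℕ) : ℝ) (f '' univ) ≤
      ENNReal.ofReal ((2 * r) ^ (n - 2)) := by
    have h4 : f '' univ ⊆ closedBall 0 r := by
      rintro _ ⟨x, _, rfl⟩
      rw [mem_closedBall_zero_iff, pi_norm_le_iff_of_nonneg hr]
      intro m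
      exact hS1 x x.2 m
    refine (measure_mono h4).trans ?_
    have h5 : (Measure.hausdorffMeasure ((n - 2 : ℕ) : ℝ) :
        Measure ({m : Fin n // m ≠ i0 ∧ m ≠ l} → ℝ)) = volume := by
      rw [← hausdorffMeasure_pi_real, hcard]
    rw [h5, Real.volume_pi_closedBall _ hr, hcard]
  have h6 : (K : ℝ≥0∞) ^ ((n - 2 : ℕ) : ℝ) = (K : ℝ≥0∞) ^ (n - 2) := ENNReal.rpow_natCast _ _
  rw [h6]
  gcongr

end H32R3.ND
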