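import Mathlib

set_option autoImplicit false

open Set Filter Topology InnerProductSpace Laplacian

namespace H32R3.ND

/-- Second derivative of a composition with a continuous linear map (at one point). -/
theorem iter2_comp {G W F : Type*} [NormedAddCommGroup G] [NormedSpace ℝ G]
    [NormedAddCommGroup W] [NormedSpace ℝ W] [NormedAddCommGroup F] [NormedSpace ℝ F]
    (L : G →L[ℝ] W) (f : W → F) (x : G) (hf : ContDiffAt ℝ 2 f (L x)) (v w : G) :
    iteratedFDeriv ℝ 2 (f ∘ L) x ![v, w] = iteratedFDeriv ℝ 2 f (L x) ![L v, L w] := by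
  have hev : ∀ᶠ z in 𝓝 (L x), ContDiffAt ℝ 2 f z := hf.eventually (by simp)
  obtain ⟨s, hs1, hs2, hs3⟩ := eventually_nhds_iff.mp hev
  have hs4 : IsOpen (L ⁻¹' s) := hs2.preimage L.continuous
  have h := ContinuousLinearMap.iteratedFDerivWithin_comp_right (i := 2) (n := 2) L
    (fun z hz => (hs1 z hz).contDiffWithinAt) hs2.uniqueDiffOn hs4.uniqueDiffOn hs3 le_rfl
  rw [iteratedFDerivWithin_of_isOpen 2 hs4 hs3, iteratedFDerivWithin_of_isOpen 2 hs2 hs3] at h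
  rw [h]
  simp only [ContinuousMultilinearMap.compContinuousLinearMap_apply]
  congr 1
  ext i
  fin_cases i <;> simp

/-- Second derivative along a line. -/
theorem iter2_line {G : Type*} [NormedAddCommGroup G] [NormedSpace ℝ G]
    (f : G → ℝ) (x e : G) (hf : ContDiffAt ℝ 2 f x) :
    deriv (deriv (fun t : ℝ => f (x + t • e))) 0 = iteratedFDeriv ℝ 2 f x ![e, e] := by
  let L : ℝ →L[ℝ] G := ContinuousLinearMap.toSpanSingleton ℝ e
  let f' : G → ℝ := fun v => f (x + v)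
  have hf' : ContDiffAt ℝ 2 f' (L 0) := by
    have : ContDiffAt ℝ 2 f (x + L 0) := by simpa using hf
    exact ContDiffAt.comp (L 0) this (by fun_prop)
  have h1 := iter2_comp L f' 0 hf' 1 1
  have h2 : iteratedFDeriv ℝ 2 f' (L 0) = iteratedFDeriv ℝ 2 f (x + L 0) := by
    have := iteratedFDeriv_comp_add_left (𝕜 := ℝ) (f := f) 2 x (L 0)
    simpa [f', add_comm] using this
  have h3 : (f' ∘ L) = fun t : ℝ => f (x + t • e) := by
    ext t
    simp [f', L]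
  rw [h3, h2] at h1
  have h4 : L 1 = e := by simp [L]
  have h5 : L 0 = 0 := by simp
  rw [h4, h5, add_zero] at h1
  rw [← h1]
  have h6 : deriv (deriv (fun t : ℝ => f (x + t • e))) 0 = iteratedDeriv 2 (fun t : ℝ => f (x + t • e)) 0 := by
    rw [iteratedDeriv_succ, iteratedDeriv_one]
  rw [h6, iteratedDeriv_eq_iteratedFDeriv]
  congr 1
  ext i
  fin_cases i <;> simp

variable {n : ℕ}

/-- the zonal monomial `|x|^(2a) ⟨x, ξ⟩^b` -/
noncomputable def mono (ξ : EuclideanSpace ℝ (Fin n)) (a b : ℕ) (x : EuclideanSpace ℝ (Fin n)) : ℝ :=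
  (‖x‖ ^ 2) ^ a * (inner ℝ x ξ) ^ b

theorem mono_contDiff (ξ : EuclideanSpace ℝ (Fin n)) (a b : ℕ) {m : WithTop ℕ∞} :
    ContDiff ℝ m (mono ξ a b) := by
  unfold mono
  refine ContDiff.mul ?_ ?_
  · exact (contDiff_norm_sq ℝ).pow a
  · exact (ContDiff.inner ℝ contDiff_id contDiff_const).pow b

theorem cast_pred_mul (a : ℕ) : (a : ℝ) * ((a - 1 : ℕ) : ℝ) = a * (a - 1) := by
  rcases a with _ | a
  · simp
  · simp

theorem g_deriv2 (s p τ q : ℝ) (a b : ℕ) :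
    deriv (deriv (fun t : ℝ => (s + 2 * p * t + t ^ 2) ^ a * (τ + q * t) ^ b)) 0 =
      a * (a - 1) * s ^ (a - 2) * (4 * p ^ 2) * τ ^ b + 2 * a * s ^ (a - 1) * τ ^ b
        + 4 * a * b * p * q * s ^ (a - 1) * τ ^ (b - 1) + b * (b - 1) * q ^ 2 * s ^ a * τ ^ (b - 2) := by
  have hA : ∀ t : ℝ, HasDerivAt (fun t : ℝ => s + 2 * p * t + t ^ 2) (2 * p + 2 * t) t := by
    intro t
    have h1 := (((hasDerivAt_id t).const_mul (2 * p)).const_add s).add ((hasDerivAt_id t).pow 2)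
    refine HasDerivAt.congr_deriv (f := fun t : ℝ => s + 2 * p * t + t ^ 2) h1 ?_
    simp
  have hB : ∀ t : ℝ, HasDerivAt (fun t : ℝ => τ + q * t) q t := by
    intro t
    have h1 := ((hasDerivAt_id t).const_mul q).const_add τ
    refine HasDerivAt.congr_deriv (f := fun t : ℝ => τ + q * t) h1 ?_
    simp
  have h1 : deriv (fun t : ℝ => (s + 2 * p * t + t ^ 2) ^ a * (τ + q * t) ^ b) =
      fun t => (a * (s + 2 * p * t + t ^ 2) ^ (a - 1) * (2 * p + 2 * t)) * (τ + q * t) ^ b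
        + (s + 2 * p * t + t ^ 2) ^ a * (b * (τ + q * t) ^ (b - 1) * q) := by
    ext t
    exact (((hA t).fun_pow a).fun_mul ((hB t).fun_pow b)).deriv
  rw [h1]
  have hC : HasDerivAt (fun t : ℝ => 2 * p + 2 * t) 2 0 := by
    have := ((hasDerivAt_id (0:ℝ)).const_mul 2).const_add (2 * p)
    simpa using this
  have h2 := (((((hA 0).fun_pow (a - 1)).const_mul (a : ℝ)).fun_mul hC).fun_mul ((hB 0).fun_pow b)).fun_add
    (((hA 0).fun_pow a).fun_mul ((((hB 0).fun_pow (b - 1)).const_mul (b : ℝ)).mul_const q))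
  rw [h2.deriv]
  simp only [mul_zero, add_zero, zero_pow (two_ne_zero)]
  have e1 : (a : ℝ) * (((a - 1 : ℕ) : ℝ) * s ^ (a - 1 - 1) * (2 * p)) * (2 * p) * τ ^ b =
      a * (a - 1) * s ^ (a - 2) * (4 * p ^ 2) * τ ^ b := by
    rw [← cast_pred_mul, Nat.sub_sub]; ring
  have e2 : s ^ a * ((b : ℝ) * (((b - 1 : ℕ) : ℝ) * τ ^ (b - 1 - 1) * q) * q) =
      b * (b - 1) * q ^ 2 * s ^ a * τ ^ (b - 2) := by
    rw [← cast_pred_mul, Nat.sub_sub]; ring
  rw [← e1, ← e2]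
  ring

theorem mono_laplacian {ξ : EuclideanSpace ℝ (Fin n)} (hξ : ‖ξ‖ = 1) (a b : ℕ)
    (x : EuclideanSpace ℝ (Fin n)) :
    Δ (mono ξ a b) x = 2 * a * (2 * a - 2 + n + 2 * b) * mono ξ (a - 1) b x
      + b * (b - 1) * mono ξ a (b - 2) x := by
  rw [laplacian_eq_iteratedFDeriv_orthonormalBasis _ (EuclideanSpace.basisFun (Fin n) ℝ)]
  set e := EuclideanSpace.basisFun (Fin n) ℝ with he
  have h1 : ∀ i, iteratedFDeriv ℝ 2 (mono ξ a b) x ![e i, e i] =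
      a * (a - 1) * (‖x‖ ^ 2) ^ (a - 2) * (4 * (inner ℝ x (e i)) ^ 2) * (inner ℝ x ξ) ^ b
        + 2 * a * (‖x‖ ^ 2) ^ (a - 1) * (inner ℝ x ξ) ^ b
        + 4 * a * b * (inner ℝ x (e i)) * (inner ℝ (e i) ξ) * (‖x‖ ^ 2) ^ (a - 1)
          * (inner ℝ x ξ) ^ (b - 1)
        + b * (b - 1) * (inner ℝ (e i) ξ) ^ 2 * (‖x‖ ^ 2) ^ a * (inner ℝ x ξ) ^ (b - 2) := by
    intro i
    rw [← iter2_line _ x (e i) (mono_contDiff ξ a b).contDiffAt, ← g_deriv2]
    have hf : (fun t : ℝ => mono ξ a b (x + t • e i)) = fun t : ℝ =>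
        (‖x‖ ^ 2 + 2 * (inner ℝ x (e i)) * t + t ^ 2) ^ a
          * (inner ℝ x ξ + inner ℝ (e i) ξ * t) ^ b := by
      ext t
      unfold mono
      have e1 : ‖x + t • e i‖ ^ 2 = ‖x‖ ^ 2 + 2 * (inner ℝ x (e i)) * t + t ^ 2 := by
        rw [norm_add_sq_real, inner_smul_right, norm_smul, e.norm_eq_one]
        rw [mul_one, Real.norm_eq_abs, sq_abs]
        ring
      have e2 : inner ℝ (x + t • e i) ξ = inner ℝ x ξ + inner ℝ (e i) ξ * t := by
        rw [inner_add_left, inner_smul_left]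
        simp [mul_comm]
      rw [e1, e2]
    rw [hf]
  beta_reduce
  rw [Finset.sum_congr rfl (fun i _ => h1 i)]
  have s1 : ∑ i, (inner ℝ x (e i)) ^ 2 = ‖x‖ ^ 2 := by
    have := e.sum_sq_norm_inner_left x
    rw [← this]
    refine Finset.sum_congr rfl fun i _ => ?_
    rw [Real.norm_eq_abs, sq_abs]
  have s2 : ∑ i, (inner ℝ x (e i)) * (inner ℝ (e i) ξ) = inner ℝ x ξ :=
    e.sum_inner_mul_inner x ξ
  have s3 : ∑ i, (inner ℝ (e i) ξ) ^ 2 = 1 := by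
    have := e.sum_sq_norm_inner_right ξ
    rw [hξ, one_pow] at this
    refine Eq.trans ?_ this
    refine Finset.sum_congr rfl fun i _ => ?_
    rw [Real.norm_eq_abs, sq_abs]
  rw [Finset.sum_add_distrib, Finset.sum_add_distrib, Finset.sum_add_distrib]
  have t1 : ∑ i, a * (a - 1) * (‖x‖ ^ 2) ^ (a - 2) * (4 * (inner ℝ x (e i)) ^ 2) * (inner ℝ x ξ) ^ b
      = a * (a - 1) * (‖x‖ ^ 2) ^ (a - 2) * (4 * ‖x‖ ^ 2) * (inner ℝ x ξ) ^ b := by
    rw [← s1, Finset.mul_sum, Finset.mul_sum, Finset.sum_mul]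
  have t3 : ∑ i, 4 * a * b * (inner ℝ x (e i)) * (inner ℝ (e i) ξ) * (‖x‖ ^ 2) ^ (a - 1)
          * (inner ℝ x ξ) ^ (b - 1) = 4 * a * b * (inner ℝ x ξ) * (‖x‖ ^ 2) ^ (a - 1)
          * (inner ℝ x ξ) ^ (b - 1) := by
    have : 4 * (a : ℝ) * b * (inner ℝ x ξ) * (‖x‖ ^ 2) ^ (a - 1) * (inner ℝ x ξ) ^ (b - 1) =
        (∑ i, (inner ℝ x (e i)) * (inner ℝ (e i) ξ)) *
          (4 * (a : ℝ) * b * (‖x‖ ^ 2) ^ (a - 1) * (inner ℝ x ξ) ^ (b - 1)) := by
      rw [s2]; ring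
    rw [this, Finset.sum_mul]
    refine Finset.sum_congr rfl fun i _ => ?_
    ring
  have t4 : ∑ i, b * (b - 1) * (inner ℝ (e i) ξ) ^ 2 * (‖x‖ ^ 2) ^ a * (inner ℝ x ξ) ^ (b - 2)
      = b * (b - 1) * 1 * (‖x‖ ^ 2) ^ a * (inner ℝ x ξ) ^ (b - 2) := by
    rw [← s3, Finset.mul_sum, Finset.sum_mul, Finset.sum_mul]
  rw [t1, t3, t4]
  simp only [Finset.sum_const, Finset.card_univ, Fintype.card_fin, nsmul_eq_mul]
  unfold mono
  rcases a with _ | a
  · rcases b with _ | b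
    · simp
    · simp
  · have u1 : ((a + 1 : ℕ) : ℝ) * (((a + 1 : ℕ) : ℝ) - 1) * (‖x‖ ^ 2) ^ (a + 1 - 2) * (4 * ‖x‖ ^ 2)
        = ((a + 1 : ℕ) : ℝ) * (((a + 1 : ℕ) : ℝ) - 1) * 4 * (‖x‖ ^ 2) ^ (a + 1 - 1) := by
      rcases a with _ | a
      · simp
      · simp only [Nat.add_sub_cancel, show a + 1 + 1 - 2 = a by omega]
        ring
    rw [u1]
    rcases b with _ | b
    · simp only [Nat.add_sub_cancel, Nat.cast_zero]
      push_cast
      ring
    · simp only [Nat.add_sub_cancel]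
      push_cast
      ring

end H32R3.ND
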