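import Pool.Agent.H32R3.ND.Des

set_option autoImplicit false

open Set Filter Topology InnerProductSpace Laplacian MeasureTheory Metric Polynomial

namespace H32R3.ND

variable {n : ℕ}

theorem sum_Z_eq {ι : Type} [Fintype ι] {w : ι → ℝ} {ξ : ι → EuclideanSpace ℝ (Fin n)} {k : ℕ}
    (hd : ∀ m < k, ∀ x : EuclideanSpace ℝ (Fin n),
        ∑ i, w i * (inner ℝ x (ξ i)) ^ m = mom m x) {b : ℕ} (hb : b < k)
    (x : EuclideanSpace ℝ (Fin n)) :
    ∑ i, w i * Z n b (ξ i) x =
      ∑ a ∈ Finset.range (b / 2 + 1), zc n b a * ((‖x‖ ^ 2) ^ a * mom (b - 2 * a) x) := by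
  unfold Z mono
  simp only [Finset.mul_sum]
  rw [Finset.sum_comm]
  refine Finset.sum_congr rfl fun a _ => ?_
  rw [← hd (b - 2 * a) (by omega) x, Finset.mul_sum, Finset.mul_sum]
  refine Finset.sum_congr rfl fun i _ => ?_
  ring

theorem zero_avg (hn : 0 < n) {b : ℕ} (hb : 1 ≤ b) {e : EuclideanSpace ℝ (Fin n)} (he : ‖e‖ = 1) :
    ∑ a ∈ Finset.range (b / 2 + 1), zc n b a * mom (b - 2 * a) e = 0 := by
  rcases Nat.even_or_odd b with hev | hodd
  · obtain ⟨m, hm⟩ := hev
    obtain ⟨ι, hι, w, ξ, hw, hw1, hξ, -, hd⟩ := exists_design hn (b + 1)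
    set Cc : ℝ := ∑ a ∈ Finset.range (b / 2 + 1), zc n b a * mom (b - 2 * a) e with hC
    have h1 : (fun x => ∑ i, w i * Z n b (ξ i) x) = Cc • mono e m 0 := by
      ext x
      rw [sum_Z_eq hd (Nat.lt_succ_self b) x, Pi.smul_apply, smul_eq_mul, hC, Finset.sum_mul]
      refine Finset.sum_congr rfl fun a ha => ?_
      have ha' : 2 * a ≤ b := by
        have := Finset.mem_range.1 ha
        omega
      unfold mono
      rw [mom_eq he, pow_zero, mul_one]
      have : (‖x‖ ^ 2) ^ a * ‖x‖ ^ (b - 2 * a) = (‖x‖ ^ 2) ^ m := by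
        rw [← pow_mul, ← pow_mul, ← pow_add]
        congr 1
        omega
      rw [← this]
      ring
    have h2 : Δ (fun x => ∑ i, w i * Z n b (ξ i) x) e = 0 := by
      rw [sum_smul_laplacian _ _ _ (fun i _ => Z_contDiff b (ξ i))]
      refine Finset.sum_eq_zero fun i _ => ?_
      rw [Z_laplacian hn b (hξ i), mul_zero]
    rw [h1, laplacian_smul _ (mono_contDiff e m 0).contDiffAt, mono_laplacian he] at h2
    unfold mono at h2
    rw [he] at h2
    simp only [one_pow, smul_eq_mul, pow_zero, mul_one, Nat.cast_zero, zero_mul, mul_zero,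
      add_zero] at h2
    have hm1 : (1 : ℝ) ≤ m := by
      have : 1 ≤ m := by omega
      exact_mod_cast this
    have hn1 : (1 : ℝ) ≤ n := by exact_mod_cast hn
    have h3 : 0 < 2 * (m : ℝ) * (2 * m - 2 + n) := by
      have : 0 < 2 * (m : ℝ) - 2 + n := by linarith
      positivity
    rcases mul_eq_zero.1 h2 with h | h
    · exact h
    · exact absurd h h3.ne'
  · refine Finset.sum_eq_zero fun a ha => ?_
    have ha' : 2 * a ≤ b := by
      have := Finset.mem_range.1 ha
      omega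
    rw [mom_odd, mul_zero]
    rcases hodd with ⟨r, hr⟩
    exact ⟨r - a, by omega⟩

theorem design_Z (hn : 0 < n) {ι : Type} [Fintype ι] {w : ι → ℝ}
    {ξ : ι → EuclideanSpace ℝ (Fin n)} {k : ℕ}
    (hd : ∀ m < k, ∀ x : EuclideanSpace ℝ (Fin n),
        ∑ i, w i * (inner ℝ x (ξ i)) ^ m = mom m x) {b : ℕ} (hb : b < k) (hb1 : 1 ≤ b)
    (x : EuclideanSpace ℝ (Fin n)) : ∑ i, w i * Z n b (ξ i) x = 0 := by
  obtain ⟨e, he⟩ : ∃ e : EuclideanSpace ℝ (Fin n), ‖e‖ = 1 :=
    ⟨EuclideanSpace.single ⟨0, hn⟩ 1, by simp⟩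
  rw [sum_Z_eq hd hb]
  have h := zero_avg hn hb1 he
  have : ∑ a ∈ Finset.range (b / 2 + 1), zc n b a * ((‖x‖ ^ 2) ^ a * mom (b - 2 * a) x) =
      ‖x‖ ^ b * ∑ a ∈ Finset.range (b / 2 + 1), zc n b a * mom (b - 2 * a) e := by
    rw [Finset.mul_sum]
    refine Finset.sum_congr rfl fun a ha => ?_
    have ha' : 2 * a ≤ b := by
      have := Finset.mem_range.1 ha
      omega
    rw [mom_eq he]
    have : (‖x‖ ^ 2) ^ a * ‖x‖ ^ (b - 2 * a) = ‖x‖ ^ b := by
      rw [← pow_mul, ← pow_add]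
      congr 1
      omega
    rw [← this]
    ring
  rw [this, h, mul_zero]

theorem abs_inner_dir_le {e : EuclideanSpace ℝ (Fin n)} (he : ‖e‖ = 1)
    (y : EuclideanSpace ℝ (Fin n)) : |inner ℝ e (dir y)| ≤ 1 := by
  have := abs_real_inner_le_norm e (dir y)
  rw [he, one_mul] at this
  exact this.trans (norm_dir_le y)

theorem measurable_inner_dir (e : EuclideanSpace ℝ (Fin n)) :
    Measurable fun y => inner ℝ e (dir y) := by
  have := measurable_dir (n := n)
  fun_prop

theorem integrable_pow {e : EuclideanSpace ℝ (Fin n)} (he : ‖e‖ = 1) (m : ℕ) :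
    Integrable (fun y => (inner ℝ e (dir y)) ^ m) (nu n) := by
  refine Integrable.of_bound ((measurable_inner_dir e).pow_const m).aestronglyMeasurable 1 ?_
  refine Filter.Eventually.of_forall fun y => ?_
  rw [norm_pow, Real.norm_eq_abs]
  exact pow_le_one₀ (abs_nonneg _) (abs_inner_dir_le he y)

theorem integral_Lp {e : EuclideanSpace ℝ (Fin n)} (he : ‖e‖ = 1) (b : ℕ) :
    Integrable (fun y => (Lp n b).eval (inner ℝ e (dir y))) (nu n) ∧
    ∫ y, (Lp n b).eval (inner ℝ e (dir y)) ∂(nu n) =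
      ∑ a ∈ Finset.range (b / 2 + 1), zc n b a * mom (b - 2 * a) e := by
  simp only [Lp_eval]
  constructor
  · exact integrable_finsetSum _ fun a _ => (integrable_pow he _).const_mul _
  · rw [integral_finsetSum _ fun a _ => (integrable_pow he _).const_mul _]
    refine Finset.sum_congr rfl fun a _ => ?_
    rw [integral_const_mul]
    rfl

/-- the kernel polynomial -/
noncomputable def Kp (M : ℕ) : ℝ[X] := (C (1 / 2) * (1 + X)) ^ M

theorem Kp_eval (M : ℕ) (t : ℝ) : (Kp M).eval t = ((1 + t) / 2) ^ M := by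
  unfold Kp
  simp only [eval_pow, eval_mul, eval_C, eval_add, eval_one, eval_X]
  congr 1
  ring

/-- the mean of the kernel over the sphere -/
noncomputable def mean (M : ℕ) (e : EuclideanSpace ℝ (Fin n)) : ℝ :=
  ∫ y, ((1 + inner ℝ e (dir y)) / 2) ^ M ∂(nu n)

theorem mean_eq (hn : 0 < n) {e : EuclideanSpace ℝ (Fin n)} (he : ‖e‖ = 1) {M N : ℕ} {β : ℕ → ℝ}
    (h : Kp M = ∑ b ∈ Finset.range (N + 1), C (β b) * Lp n b) : mean M e = β 0 := by
  unfold mean
  have h1 : ∀ t : ℝ, ((1 + t) / 2) ^ M = ∑ b ∈ Finset.range (N + 1), β b * (Lp n b).eval t := by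
    intro t
    rw [← Kp_eval, h, eval_finsetSum]
    simp
  simp only [h1]
  rw [integral_finsetSum _ fun b _ => (integral_Lp he b).1.const_mul _, Finset.sum_range_succ']
  have h2 : ∀ b ∈ Finset.range N,
      ∫ y, β (b + 1) * (Lp n (b + 1)).eval (inner ℝ e (dir y)) ∂(nu n) = 0 := by
    intro b _
    rw [integral_const_mul, (integral_Lp he _).2, zero_avg hn (by omega) he, mul_zero]
  rw [Finset.sum_congr rfl h2, Finset.sum_const_zero, zero_add, integral_const_mul,
    (integral_Lp he _).2]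
  simp [zc_zero, mom]

theorem exists_Kp (n M : ℕ) : ∃ (N : ℕ) (β : ℕ → ℝ),
    Kp M = ∑ b ∈ Finset.range (N + 1), C (β b) * Lp n b := by
  obtain ⟨β, hβ⟩ := exists_expansion n ((Kp M).natDegree + 1) (Kp M) (fun m hm =>
    coeff_eq_zero_of_natDegree_lt (by omega))
  exact ⟨_, β, hβ⟩

theorem base_nonneg {e : EuclideanSpace ℝ (Fin n)} (he : ‖e‖ = 1)
    (y : EuclideanSpace ℝ (Fin n)) : 0 ≤ (1 + inner ℝ e (dir y)) / 2 ∧
      (1 + inner ℝ e (dir y)) / 2 ≤ 1 := by
  have := abs_le.1 (abs_inner_dir_le he y)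
  constructor <;> linarith [this.1, this.2]

theorem integrable_kernel {e : EuclideanSpace ℝ (Fin n)} (he : ‖e‖ = 1) (M : ℕ) :
    Integrable (fun y => ((1 + inner ℝ e (dir y)) / 2) ^ M) (nu n) := by
  refine Integrable.of_bound (((measurable_inner_dir e).const_add 1).div_const 2
    |>.pow_const M).aestronglyMeasurable 1 ?_
  refine Filter.Eventually.of_forall fun y => ?_
  rw [norm_pow, Real.norm_of_nonneg (base_nonneg he y).1]
  exact pow_le_one₀ (base_nonneg he y).1 (base_nonneg he y).2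

theorem mean_lower {e : EuclideanSpace ℝ (Fin n)} (he : ‖e‖ = 1) {q : ℝ} (hq0 : 0 < q)
    (hq1 : q < 1) (Cc : ℝ) : ∀ᶠ M : ℕ in atTop, Cc * ((M : ℝ) + 1) * q ^ M ≤ mean M e := by
  set ρ := (1 + q) / 2 with hρ
  have hρ1 : ρ < 1 := by rw [hρ]; linarith
  have hqρ : q < ρ := by rw [hρ]; linarith
  have hρ0 : 0 < ρ := by linarith
  set A : Set (EuclideanSpace ℝ (Fin n)) := {y | ρ ≤ (1 + inner ℝ e (dir y)) / 2} with hA
  have hAm : MeasurableSet A :=
    measurableSet_le measurable_const (((measurable_inner_dir e).const_add 1).div_const 2)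
  have hApos : 0 < (nu n).real A := by
    rw [Measure.real, ENNReal.toReal_pos_iff]
    refine ⟨?_, measure_lt_top _ _⟩
    unfold nu
    rw [Measure.smul_apply, smul_eq_mul, Measure.restrict_apply hAm]
    refine ENNReal.mul_pos (ENNReal.inv_ne_zero.2 (ball_fin n)) ?_
    refine (MeasureTheory.Measure.measure_pos_of_mem_nhds (x := (1 / 2 : ℝ) • e) _ ?_).ne'
    have hne : (1 / 2 : ℝ) • e ≠ 0 := by
      rw [← norm_ne_zero_iff, norm_smul, he]
      norm_num
    have hcont : ContinuousAt (fun y => (1 + inner ℝ e (dir y)) / 2) ((1 / 2 : ℝ) • e) := by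
      have h1 : ContinuousAt (dir (n := n)) ((1 / 2 : ℝ) • e) := by
        unfold dir
        exact (continuousAt_id.norm.inv₀ (norm_ne_zero_iff.2 hne)).smul continuousAt_id
      exact ((continuousAt_const.inner h1).const_add 1).div_const 2
    have hval : (1 + inner ℝ e (dir ((1 / 2 : ℝ) • e))) / 2 = 1 := by
      unfold dir
      rw [norm_smul, he, smul_smul, inner_smul_right, real_inner_self_eq_norm_sq, he]
      norm_num
    refine Filter.inter_mem ?_ ?_
    · have := hcont.eventually (lt_mem_nhds (a := ρ) (by beta_reduce; rw [hval]; exact hρ1))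
      filter_upwards [this] with y hy
      exact hy.le
    · refine isOpen_ball.mem_nhds ?_
      rw [mem_ball_zero_iff, norm_smul, he]
      norm_num
  have hlow : ∀ M : ℕ, ρ ^ M * (nu n).real A ≤ mean M e := by
    intro M
    unfold mean
    have h1 : ∫ y in A, ρ ^ M ∂(nu n) ≤ ∫ y in A, ((1 + inner ℝ e (dir y)) / 2) ^ M ∂(nu n) := by
      refine setIntegral_mono_on (integrable_const _).integrableOn
        (integrable_kernel he M).integrableOn hAm fun y hy => ?_
      exact pow_le_pow_left₀ hρ0.le hy M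
    have h2 : ∫ y in A, ((1 + inner ℝ e (dir y)) / 2) ^ M ∂(nu n) ≤
        ∫ y, ((1 + inner ℝ e (dir y)) / 2) ^ M ∂(nu n) :=
      setIntegral_le_integral (integrable_kernel he M)
        (Filter.Eventually.of_forall fun y => pow_nonneg (base_nonneg he y).1 M)
    have h3 : ∫ y in A, ρ ^ M ∂(nu n) = ρ ^ M * (nu n).real A := by
      rw [setIntegral_const, smul_eq_mul, mul_comm]
    rw [← h3]
    exact h1.trans h2
  have hr0 : 0 ≤ q / ρ := by positivity
  have hr1 : q / ρ < 1 := by rw [div_lt_one hρ0]; exact hqρ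
  have hlim1 := tendsto_self_mul_const_pow_of_lt_one hr0 hr1
  have hlim2 := tendsto_pow_atTop_nhds_zero_of_lt_one hr0 hr1
  have hlim3 : Tendsto (fun M : ℕ => Cc * (((M : ℝ) * (q / ρ) ^ M) + (q / ρ) ^ M)) atTop (𝓝 0) := by
    have := (hlim1.add hlim2).const_mul Cc
    simpa using this
  have hev := hlim3.eventually (gt_mem_nhds hApos)
  filter_upwards [hev] with M hM
  refine le_trans ?_ (hlow M)
  have h5 : Cc * ((M : ℝ) + 1) * q ^ M =
      ρ ^ M * (Cc * (((M : ℝ) * (q / ρ) ^ M) + (q / ρ) ^ M)) := by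
    have hρM : ρ ^ M ≠ 0 := (pow_pos hρ0 M).ne'
    have h6 : ρ ^ M * (q / ρ) ^ M = q ^ M := by
      rw [← mul_pow, mul_div_cancel₀ _ hρ0.ne']
    rw [← h6]
    ring
  rw [h5]
  exact mul_le_mul_of_nonneg_left hM.le (pow_pos hρ0 M).le

theorem mean_tendsto (hn : 2 ≤ n) {e : EuclideanSpace ℝ (Fin n)} (he : ‖e‖ = 1) :
    Tendsto (fun M : ℕ => mean M e) atTop (𝓝 0) := by
  unfold mean
  have h0 : (0 : ℝ) = ∫ y : EuclideanSpace ℝ (Fin n), (0 : ℝ) ∂(nu n) := by simp
  rw [h0]
  refine tendsto_integral_of_dominated_convergence (fun _ => (1 : ℝ)) ?_ (integrable_const _) ?_ ?_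
  · intro M
    exact (integrable_kernel he M).aestronglyMeasurable
  · intro M
    refine Filter.Eventually.of_forall fun y => ?_
    rw [norm_pow, Real.norm_of_nonneg (base_nonneg he y).1]
    exact pow_le_one₀ (base_nonneg he y).1 (base_nonneg he y).2
  · have hsub : volume ((ℝ ∙ e : Submodule ℝ (EuclideanSpace ℝ (Fin n))) :
        Set (EuclideanSpace ℝ (Fin n))) = 0 := by
      apply Measure.addHaar_submodule
      intro htop
      have h1 := finrank_span_singleton (K := ℝ) (v := e) (by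
        rw [← norm_ne_zero_iff, he]; norm_num)
      rw [htop, finrank_top, finrank_euclideanSpace_fin] at h1
      omega
    have hae : ∀ᵐ y ∂(nu n), y ∉ (ℝ ∙ e : Submodule ℝ (EuclideanSpace ℝ (Fin n))) := by
      unfold nu
      apply Measure.ae_smul_measure
      apply ae_restrict_of_ae
      rw [ae_iff]
      simpa using hsub
    filter_upwards [hae] with y hy
    refine tendsto_pow_atTop_nhds_zero_of_lt_one (base_nonneg he y).1 ?_
    refine lt_of_le_of_ne (base_nonneg he y).2 fun hcon => hy ?_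
    have h1 : inner ℝ e (dir y) = 1 := by linarith
    have hy0 : y ≠ 0 := by
      rintro rfl
      simp [dir] at h1
    have h2 : dir y = e := by
      have h3 := (inner_eq_one_iff_of_norm_eq_one (𝕜 := ℝ) he (norm_dir hy0)).1 h1
      exact h3.symm
    rw [Submodule.mem_span_singleton]
    refine ⟨‖y‖, ?_⟩
    rw [← h2]
    unfold dir
    rw [smul_smul, mul_inv_cancel₀ (norm_ne_zero_iff.2 hy0), one_smul]

end H32R3.ND
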