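import Pool.Agent.H32R3.ND.Mean
import Pool.Agent.H32R3.ND.Geo

set_option autoImplicit false
set_option maxHeartbeats 4000000

open Set Filter Topology MeasureTheory Metric
open scoped NNReal ENNReal

namespace H32R3.ND

variable {n : ℕ}

theorem pow_lower {b h : ℝ} (hb : 0 ≤ b) (hh : 0 ≤ h) (M : ℕ) :
    M * b ^ (M - 1) * h ≤ (b + h) ^ M - b ^ M := by
  induction M with
  | zero => simp
  | succ M ih =>
    rcases M with _ | M
    · simp
    · simp only [Nat.add_sub_cancel] at ih ⊢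
      have h1 : (b + h) ^ (M + 1 + 1) = (b + h) ^ (M + 1) * (b + h) := pow_succ _ _
      have h2 : b ^ (M + 1) + ((M + 1 : ℕ) : ℝ) * b ^ M * h ≤ (b + h) ^ (M + 1) := by linarith
      have h3 := mul_le_mul_of_nonneg_right h2 (add_nonneg hb hh)
      have h4 : 0 ≤ ((M + 1 : ℕ) : ℝ) * b ^ M * h * h := by positivity
      rw [h1]
      have h5 : (b ^ (M + 1) + ((M + 1 : ℕ) : ℝ) * b ^ M * h) * (b + h) =
          b ^ (M + 1 + 1) + ((M + 1 + 1 : ℕ) : ℝ) * b ^ (M + 1) * h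
            + ((M + 1 : ℕ) : ℝ) * b ^ M * h * h := by
        push_cast; ring
      linarith

theorem pow_lower' {a b c : ℝ} (ha : 0 ≤ a) (hb : 0 ≤ b) (ha1 : a ≤ 1) (hb1 : b ≤ 1) {M : ℕ}
    (hca : c ≤ a ^ M) (hcb : c ≤ b ^ M) : M * c * |a - b| ≤ |a ^ M - b ^ M| := by
  have key : ∀ a b : ℝ, 0 ≤ a → 0 ≤ b → a ≤ 1 → b ≤ 1 → c ≤ a ^ M → c ≤ b ^ M → b ≤ a →
      M * c * |a - b| ≤ |a ^ M - b ^ M| := by
    intro a b ha hb ha1 hb1 hca hcb hba
    rw [abs_of_nonneg (sub_nonneg.2 hba), abs_of_nonneg (sub_nonneg.2 (pow_le_pow_left₀ hb hba M))]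
    have h1 := pow_lower hb (sub_nonneg.2 hba) M
    rw [add_sub_cancel] at h1
    refine le_trans ?_ h1
    refine mul_le_mul_of_nonneg_right ?_ (sub_nonneg.2 hba)
    refine mul_le_mul_of_nonneg_left ?_ (Nat.cast_nonneg M)
    exact hcb.trans (pow_le_pow_of_le_one hb hb1 (Nat.sub_le M 1))
  rcases le_total b a with h | h
  · exact key a b ha hb ha1 hb1 hca hcb h
  · rw [abs_sub_comm a b, abs_sub_comm (a ^ M)]
    exact key b a hb ha hb1 ha1 hcb hca h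

/-- the weighted kernel sum -/
noncomputable def Phi {ι : Type} [Fintype ι] (w : ι → ℝ) (ξ : ι → EuclideanSpace ℝ (Fin n))
    (M : ℕ) (e : EuclideanSpace ℝ (Fin n)) : ℝ := ∑ i, w i * ((1 + inner ℝ e (ξ i)) / 2) ^ M

theorem inner_bd {e ξ : EuclideanSpace ℝ (Fin n)} (he : ‖e‖ = 1) (hξ : ‖ξ‖ = 1) :
    |inner ℝ e ξ| ≤ 1 := by
  have := abs_real_inner_le_norm e ξ
  rwa [he, hξ, one_mul] at this

theorem base_bd {e ξ : EuclideanSpace ℝ (Fin n)} (he : ‖e‖ = 1) (hξ : ‖ξ‖ = 1) :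
    0 ≤ (1 + inner ℝ e ξ) / 2 ∧ (1 + inner ℝ e ξ) / 2 ≤ 1 := by
  have := abs_le.1 (inner_bd he hξ)
  constructor <;> linarith [this.1, this.2]

/-- Estimates at nodal points in a cap. -/
theorem nodal_point {ι : Type} [Fintype ι] [DecidableEq ι] {w : ι → ℝ}
    {ξ : ι → EuclideanSpace ℝ (Fin n)} (hw : ∀ i, 0 < w i) (hw1 : ∑ i, w i = 1)
    (hξ : ∀ i, ‖ξ i‖ = 1) {w0 m q τ : ℝ} (hw0 : 0 < w0) (hww : ∀ i, w0 ≤ w i) {M : ℕ} (hM : 1 ≤ M)
    (hq0 : 0 < q) (hA1 : m ≤ w0 / 2) (hA2 : q ^ M ≤ m / 2) (hm : 0 < m) (hτ : τ ≤ 1)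
    (i : ι) (hcap : ∀ e : EuclideanSpace ℝ (Fin n), ‖e‖ = 1 → 1 - τ ≤ inner ℝ e (ξ i) →
      ∀ j ≠ i, (1 + inner ℝ e (ξ j)) / 2 ≤ q)
    {e : EuclideanSpace ℝ (Fin n)} (he : ‖e‖ = 1) (hPhi : Phi w ξ M e = m)
    (hc : 1 - τ ≤ inner ℝ e (ξ i)) :
    1 / (M : ℝ) ≤ Real.sqrt (1 - (inner ℝ e (ξ i)) ^ 2) ∧
      m / 2 ≤ ((1 + inner ℝ e (ξ i)) / 2) ^ M := by
  set t := inner ℝ e (ξ i) with ht
  have hwi1 : w i ≤ 1 := by
    rw [← hw1]
    exact Finset.single_le_sum (fun j _ => (hw j).le) (Finset.mem_univ i)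
  have hbd := base_bd he (hξ i)
  rw [← ht] at hbd
  have htbd := abs_le.1 (inner_bd he (hξ i))
  rw [← ht] at htbd
  have hM1 : (1 : ℝ) ≤ M := by exact_mod_cast hM
  have hMpos : (0 : ℝ) < M := by linarith
  have hsplit : w i * ((1 + t) / 2) ^ M +
      ∑ j ∈ Finset.univ.erase i, w j * ((1 + inner ℝ e (ξ j)) / 2) ^ M = m := by
    rw [← hPhi, Phi, ← Finset.add_sum_erase _ _ (Finset.mem_univ i)]
  have hE0 : 0 ≤ ∑ j ∈ Finset.univ.erase i, w j * ((1 + inner ℝ e (ξ j)) / 2) ^ M :=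
    Finset.sum_nonneg fun j _ => mul_nonneg (hw j).le (pow_nonneg (base_bd he (hξ j)).1 M)
  have hE1 : ∑ j ∈ Finset.univ.erase i, w j * ((1 + inner ℝ e (ξ j)) / 2) ^ M ≤ q ^ M := by
    calc _ ≤ ∑ j ∈ Finset.univ.erase i, w j * q ^ M := by
          refine Finset.sum_le_sum fun j hj => ?_
          refine mul_le_mul_of_nonneg_left ?_ (hw j).le
          exact pow_le_pow_left₀ (base_bd he (hξ j)).1 (hcap e he hc j (Finset.ne_of_mem_erase hj)) M
      _ = (∑ j ∈ Finset.univ.erase i, w j) * q ^ M := by rw [Finset.sum_mul]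
      _ ≤ 1 * q ^ M := by
          refine mul_le_mul_of_nonneg_right ?_ (pow_pos hq0 M).le
          rw [← hw1]
          exact Finset.sum_le_sum_of_subset_of_nonneg (Finset.erase_subset _ _)
            fun j _ _ => (hw j).le
      _ = q ^ M := one_mul _
  constructor
  · have h1 : ((1 + t) / 2) ^ M ≤ 1 / 2 := by
      have h2 : w0 * ((1 + t) / 2) ^ M ≤ w0 * (1 / 2) := by
        calc w0 * ((1 + t) / 2) ^ M ≤ w i * ((1 + t) / 2) ^ M :=
              mul_le_mul_of_nonneg_right (hww i) (pow_nonneg hbd.1 M)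
          _ ≤ m := by linarith
          _ ≤ w0 * (1 / 2) := by linarith
      exact le_of_mul_le_mul_left h2 hw0
    have h3 := one_add_mul_le_pow (a := (1 + t) / 2 - 1) (by linarith [hbd.1]) M
    rw [add_sub_cancel] at h3
    have h4 : 1 ≤ M * (1 - t) := by
      have : (M : ℝ) * ((1 + t) / 2 - 1) = - (M * (1 - t) / 2) := by ring
      rw [this] at h3
      linarith
    apply Real.le_sqrt_of_sq_le
    have h5 : 1 - t ^ 2 = (1 - t) * (1 + t) := by ring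
    have h6 : 1 - t ≤ 1 - t ^ 2 := by
      rw [h5]
      have : 0 ≤ t := by linarith
      nlinarith [htbd.2]
    refine le_trans ?_ h6
    rw [div_pow, one_pow, div_le_iff₀ (by positivity)]
    have h7 : 0 ≤ 1 - t := by linarith [htbd.2]
    nlinarith
  · have h1 : m / 2 ≤ w i * ((1 + t) / 2) ^ M := by linarith
    refine h1.trans ?_
    have := mul_le_mul_of_nonneg_right hwi1 (pow_nonneg hbd.1 M)
    linarith

/-- Two nodal points in the same cap have almost the same height. -/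
theorem nodal_pair {ι : Type} [Fintype ι] [DecidableEq ι] {w : ι → ℝ}
    {ξ : ι → EuclideanSpace ℝ (Fin n)} (hw : ∀ i, 0 < w i) (hw1 : ∑ i, w i = 1)
    (hξ : ∀ i, ‖ξ i‖ = 1) {w0 m q τ : ℝ} (hw0 : 0 < w0) (hww : ∀ i, w0 ≤ w i) {M : ℕ} (hM : 1 ≤ M)
    (hq0 : 0 < q) (hm : 0 < m)
    (i : ι) (hcap : ∀ e : EuclideanSpace ℝ (Fin n), ‖e‖ = 1 → 1 - τ ≤ inner ℝ e (ξ i) →
      ∀ j ≠ i, (1 + inner ℝ e (ξ j)) / 2 ≤ q)
    {e e' : EuclideanSpace ℝ (Fin n)} (he : ‖e‖ = 1) (he' : ‖e'‖ = 1)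
    (hPhi : Phi w ξ M e = m) (hPhi' : Phi w ξ M e' = m)
    (hc : 1 - τ ≤ inner ℝ e (ξ i)) (hc' : 1 - τ ≤ inner ℝ e' (ξ i))
    (hl : m / 2 ≤ ((1 + inner ℝ e (ξ i)) / 2) ^ M)
    (hl' : m / 2 ≤ ((1 + inner ℝ e' (ξ i)) / 2) ^ M) :
    |inner ℝ e (ξ i) - inner ℝ e' (ξ i)| ≤ 2 * q ^ (M - 1) / (w0 * m) * ‖e - e'‖ := by
  have hM1 : (1 : ℝ) ≤ M := by exact_mod_cast hM
  have hMpos : (0 : ℝ) < M := by linarith
  set a := (1 + inner ℝ e (ξ i)) / 2 with ha
  set a' := (1 + inner ℝ e' (ξ i)) / 2 with ha'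
  have hbd := base_bd he (hξ i)
  have hbd' := base_bd he' (hξ i)
  have h1 := pow_lower' hbd.1 hbd'.1 hbd.2 hbd'.2 hl hl'
  have hsplit : w i * a ^ M +
      ∑ j ∈ Finset.univ.erase i, w j * ((1 + inner ℝ e (ξ j)) / 2) ^ M = m := by
    rw [← hPhi, Phi, ← Finset.add_sum_erase _ _ (Finset.mem_univ i)]
  have hsplit' : w i * a' ^ M +
      ∑ j ∈ Finset.univ.erase i, w j * ((1 + inner ℝ e' (ξ j)) / 2) ^ M = m := by
    rw [← hPhi', Phi, ← Finset.add_sum_erase _ _ (Finset.mem_univ i)]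
  have h2 : w i * (a ^ M - a' ^ M) = ∑ j ∈ Finset.univ.erase i,
      w j * (((1 + inner ℝ e' (ξ j)) / 2) ^ M - ((1 + inner ℝ e (ξ j)) / 2) ^ M) := by
    have : ∑ j ∈ Finset.univ.erase i,
      w j * (((1 + inner ℝ e' (ξ j)) / 2) ^ M - ((1 + inner ℝ e (ξ j)) / 2) ^ M) =
      ∑ j ∈ Finset.univ.erase i, w j * ((1 + inner ℝ e' (ξ j)) / 2) ^ M -
      ∑ j ∈ Finset.univ.erase i, w j * ((1 + inner ℝ e (ξ j)) / 2) ^ M := by
      rw [← Finset.sum_sub_distrib]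
      exact Finset.sum_congr rfl fun j _ => by ring
    rw [this]
    linarith
  have h3 : |∑ j ∈ Finset.univ.erase i,
      w j * (((1 + inner ℝ e' (ξ j)) / 2) ^ M - ((1 + inner ℝ e (ξ j)) / 2) ^ M)| ≤
      ‖e - e'‖ / 2 * M * q ^ (M - 1) := by
    calc _ ≤ ∑ j ∈ Finset.univ.erase i,
          |w j * (((1 + inner ℝ e' (ξ j)) / 2) ^ M - ((1 + inner ℝ e (ξ j)) / 2) ^ M)| :=
          Finset.abs_sum_le_sum_abs _ _
      _ ≤ ∑ j ∈ Finset.univ.erase i, w j * (‖e - e'‖ / 2 * M * q ^ (M - 1)) := by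
          refine Finset.sum_le_sum fun j hj => ?_
          rw [abs_mul, abs_of_pos (hw j)]
          refine mul_le_mul_of_nonneg_left ?_ (hw j).le
          refine (abs_pow_sub_pow_le _ _ _).trans ?_
          have hj' := Finset.ne_of_mem_erase hj
          have g1 : |(1 + inner ℝ e' (ξ j)) / 2 - (1 + inner ℝ e (ξ j)) / 2| ≤ ‖e - e'‖ / 2 := by
            have g2 : (1 + inner ℝ e' (ξ j)) / 2 - (1 + inner ℝ e (ξ j)) / 2 =
                - (inner ℝ (e - e') (ξ j) / 2) := by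
              rw [inner_sub_left]; ring
            rw [g2, abs_neg, abs_div, abs_two]
            have := abs_real_inner_le_norm (e - e') (ξ j)
            rw [hξ j, mul_one] at this
            linarith
          have g3 : max |(1 + inner ℝ e' (ξ j)) / 2| |(1 + inner ℝ e (ξ j)) / 2| ≤ q := by
            rw [abs_of_nonneg (base_bd he' (hξ j)).1, abs_of_nonneg (base_bd he (hξ j)).1]
            exact max_le (hcap e' he' hc' j hj') (hcap e he hc j hj')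
          refine mul_le_mul ?_ ?_ (by positivity) (by positivity)
          · exact mul_le_mul_of_nonneg_right g1 hMpos.le
          · exact pow_le_pow_left₀ (le_max_of_le_left (abs_nonneg _)) g3 _
      _ = (∑ j ∈ Finset.univ.erase i, w j) * (‖e - e'‖ / 2 * M * q ^ (M - 1)) := by
          rw [Finset.sum_mul]
      _ ≤ 1 * (‖e - e'‖ / 2 * M * q ^ (M - 1)) := by
          refine mul_le_mul_of_nonneg_right ?_ (by positivity)
          rw [← hw1]
          exact Finset.sum_le_sum_of_subset_of_nonneg (Finset.erase_subset _ _)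
            fun j _ _ => (hw j).le
      _ = _ := one_mul _
  rw [← h2, abs_mul, abs_of_pos (hw i)] at h3
  have h4 : w0 * (M * (m / 2) * |a - a'|) ≤ ‖e - e'‖ / 2 * M * q ^ (M - 1) := by
    calc w0 * (M * (m / 2) * |a - a'|) ≤ w i * |a ^ M - a' ^ M| :=
          mul_le_mul (hww i) h1 (by positivity) (hw i).le
      _ ≤ _ := h3
  have h5 : |a - a'| = |inner ℝ e (ξ i) - inner ℝ e' (ξ i)| / 2 := by
    have : a - a' = (inner ℝ e (ξ i) - inner ℝ e' (ξ i)) / 2 := by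
      rw [ha, ha']; ring
    rw [this, abs_div, abs_two]
  rw [h5] at h4
  rw [div_mul_eq_mul_div, le_div_iff₀ (by positivity)]
  have h6 : (M : ℝ) * (|inner ℝ e (ξ i) - inner ℝ e' (ξ i)| * (w0 * m)) ≤
      M * (2 * q ^ (M - 1) * ‖e - e'‖) := by
    linarith
  exact le_of_mul_le_mul_left h6 hMpos

end H32R3.ND
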