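import Pool.Agent.H32R3.ND.Nod

set_option autoImplicit false
set_option maxHeartbeats 4000000

open Set Filter Topology MeasureTheory Metric
open scoped NNReal ENNReal

namespace H32R3.ND

variable {n : ℕ}

theorem exists_basis (hn : 0 < n) {ξ : EuclideanSpace ℝ (Fin n)} (hξ : ‖ξ‖ = 1) :
    ∃ b : OrthonormalBasis (Fin n) ℝ (EuclideanSpace ℝ (Fin n)), b ⟨0, hn⟩ = ξ := by
  have hv : Orthonormal ℝ (({⟨0, hn⟩} : Set (Fin n)).domRestrict
      (fun _ : Fin n => ξ)) := by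
    constructor
    · intro i
      simpa using hξ
    · intro i j hij
      exfalso
      apply hij
      apply Subtype.ext
      have hi : (i : Fin n) = ⟨0, hn⟩ := i.2
      have hj : (j : Fin n) = ⟨0, hn⟩ := j.2
      rw [hi, hj]
  obtain ⟨b, hb⟩ := hv.exists_orthonormalBasis_extension_of_card_eq (by simp)
  exact ⟨b, hb _ (mem_singleton _)⟩

/-- some coordinate of the tangential part is large -/
theorem exists_coord (hn : 2 ≤ n) (b : OrthonormalBasis (Fin n) ℝ (EuclideanSpace ℝ (Fin n)))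
    {e : EuclideanSpace ℝ (Fin n)} (he : ‖e‖ = 1) (i0 : Fin n) :
    ∃ l : Fin n, l ≠ i0 ∧ Real.sqrt (1 - (b.repr e i0) ^ 2) / n ≤ |b.repr e l| := by
  classical
  have hn1 : (1 : ℝ) ≤ n := by exact_mod_cast (by omega : 1 ≤ n)
  by_contra hcon
  push Not at hcon
  have hsum : 1 = ∑ m, (b.repr e m) ^ 2 := by
    have h := EuclideanSpace.norm_sq_eq (b.repr e)
    rw [b.repr.norm_map, he, one_pow] at h
    rw [h]
    refine Finset.sum_congr rfl fun m _ => ?_
    rw [Real.norm_eq_abs, sq_abs]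
  have h1 : 1 - (b.repr e i0) ^ 2 = ∑ m ∈ Finset.univ.erase i0, (b.repr e m) ^ 2 := by
    rw [hsum, ← Finset.add_sum_erase _ _ (Finset.mem_univ i0)]
    ring
  have h0 : 0 ≤ 1 - (b.repr e i0) ^ 2 := by
    rw [h1]; exact Finset.sum_nonneg fun _ _ => sq_nonneg _
  set s := Real.sqrt (1 - (b.repr e i0) ^ 2) with hs
  have hs0 : 0 ≤ s := Real.sqrt_nonneg _
  have hs2 : s ^ 2 = 1 - (b.repr e i0) ^ 2 := Real.sq_sqrt h0
  have hne : (Finset.univ.erase i0).Nonempty := by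
    rw [← Finset.card_pos, Finset.card_erase_of_mem (Finset.mem_univ i0), Finset.card_univ,
      Fintype.card_fin]
    omega
  have h2 : ∑ m ∈ Finset.univ.erase i0, (b.repr e m) ^ 2 <
      ∑ _m ∈ Finset.univ.erase i0, (s / n) ^ 2 := by
    refine Finset.sum_lt_sum_of_nonempty hne fun m hm => ?_
    have := hcon m (Finset.ne_of_mem_erase hm)
    rw [← sq_abs]
    exact pow_lt_pow_left₀ this (abs_nonneg _) two_ne_zero
  rw [Finset.sum_const, Finset.card_erase_of_mem (Finset.mem_univ i0), Finset.card_univ,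
    Fintype.card_fin, ← h1, ← hs2, nsmul_eq_mul] at h2
  have h3 : ((n - 1 : ℕ) : ℝ) ≤ n := by exact_mod_cast Nat.sub_le n 1
  have h4 : ((n - 1 : ℕ) : ℝ) * (s / n) ^ 2 ≤ s ^ 2 := by
    calc ((n - 1 : ℕ) : ℝ) * (s / n) ^ 2 ≤ n * (s / n) ^ 2 :=
          mul_le_mul_of_nonneg_right h3 (sq_nonneg _)
      _ = s ^ 2 / n := by field_simp
      _ ≤ s ^ 2 := div_le_self (sq_nonneg _) hn1
  linarith

theorem nodal_small (hn : 3 ≤ n) {ι : Type} [Fintype ι] {w : ι → ℝ}
    {ξ : ι → EuclideanSpace ℝ (Fin n)} (hw : ∀ i, 0 < w i) (hw1 : ∑ i, w i = 1)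
    (hξ : ∀ i, ‖ξ i‖ = 1) (hinj : Function.Injective ξ) {ε : ℝ≥0∞} (hε : 0 < ε)
    {e0 : EuclideanSpace ℝ (Fin n)} (he0 : ‖e0‖ = 1) :
    ∀ᶠ M : ℕ in atTop,
      Measure.hausdorffMeasure ((n - 2 : ℕ) : ℝ)
        {e : EuclideanSpace ℝ (Fin n) | ‖e‖ = 1 ∧ Phi w ξ M e = mean M e0} < ε ∧
      ∀ i, mean M e0 < w i := by
  classical
  have hι : Nonempty ι := by
    by_contra h
    rw [not_nonempty_iff] at h
    rw [Finset.univ_eq_empty, Finset.sum_empty] at hw1
    norm_num at hw1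
  have hn0 : 0 < n := by omega
  have hnR : (0 : ℝ) < n := by exact_mod_cast hn0
  -- minimal weight
  obtain ⟨i₁, hi₁⟩ := Finite.exists_min w
  set w0 := w i₁ with hw0d
  have hw0 : 0 < w0 := hw i₁
  -- separation of the points
  let g : ι × ι → ℝ := fun p => if p.1 = p.2 then 0 else inner ℝ (ξ p.1) (ξ p.2)
  obtain ⟨p₁, hp₁⟩ := Finite.exists_max g
  set γ := max (g p₁) 0 with hγ
  have hγ1 : γ < 1 := by
    apply max_lt _ one_pos
    simp only [g]
    split_ifs with h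
    · exact one_pos
    · exact (inner_lt_one_iff_real_of_norm_eq_one (hξ _) (hξ _)).2 fun hcon => h (hinj hcon)
  have hγ0 : 0 ≤ γ := le_max_right _ _
  have hsep : ∀ i j, i ≠ j → inner ℝ (ξ i) (ξ j) ≤ γ := by
    intro i j hij
    have h1 := hp₁ (i, j)
    simp only [g, if_neg hij] at h1
    exact h1.trans (le_max_left _ _)
  -- choice of the radius
  set A : ℝ := (Fintype.card (ι × Fin n × Bool) : ℝ) * (4 * (n : ℝ) ^ 2) ^ (n - 2) with hA
  have hA0 : 0 ≤ A := by positivity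
  obtain ⟨r, hr0, hr1, hrε⟩ : ∃ r : ℝ, 0 < r ∧ r ≤ 1 / 2 ∧ ENNReal.ofReal (A * (2 * r)) < ε := by
    have h1 : Tendsto (fun r : ℝ => ENNReal.ofReal (A * (2 * r))) (𝓝 0)
        (𝓝 (ENNReal.ofReal (A * (2 * 0)))) := by
      refine (ENNReal.continuous_ofReal.comp ?_).tendsto 0
      fun_prop
    rw [mul_zero, mul_zero, ENNReal.ofReal_zero] at h1
    have h2 := h1.eventually (gt_mem_nhds hε)
    have h3 : ∀ᶠ r : ℝ in 𝓝[>] 0, ENNReal.ofReal (A * (2 * r)) < ε := h2.filter_mono nhdsWithin_le_nhds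
    have h4 : ∀ᶠ r : ℝ in 𝓝[>] 0, r ≤ 1 / 2 :=
      (Filter.Eventually.filter_mono nhdsWithin_le_nhds (Iic_mem_nhds (by norm_num)))
    obtain ⟨r, h5, h6, h7⟩ := (h3.and (h4.and self_mem_nhdsWithin)).exists
    exact ⟨r, h7, h6, h5⟩
  set τ := min (r ^ 2 / 2) (min ((1 - γ) ^ 2 / 8) 1) with hτ
  have hτ0 : 0 < τ := by
    apply lt_min (by positivity) (lt_min _ one_pos)
    have : 0 < 1 - γ := by linarith
    positivity
  have hτ1 : τ ≤ 1 := (min_le_right _ _).trans (min_le_right _ _)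
  have hτr : 2 * τ ≤ r ^ 2 := by
    have := min_le_left (r ^ 2 / 2) (min ((1 - γ) ^ 2 / 8) 1)
    rw [← hτ] at this
    linarith
  have hτγ : 2 * τ ≤ ((1 - γ) / 2) ^ 2 := by
    have := (min_le_right (r ^ 2 / 2) (min ((1 - γ) ^ 2 / 8) 1)).trans (min_le_left _ _)
    rw [← hτ] at this
    nlinarith
  set q := (1 + (1 + γ) / 2) / 2 with hq
  have hq0 : 0 < q := by rw [hq]; linarith
  have hq1 : q < 1 := by rw [hq]; linarith
  have hcap : ∀ i, ∀ e : EuclideanSpace ℝ (Fin n), ‖e‖ = 1 → 1 - τ ≤ inner ℝ e (ξ i) →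
      ∀ j ≠ i, (1 + inner ℝ e (ξ j)) / 2 ≤ q := by
    intro i e he hc j hj
    have h1 : ‖e - ξ i‖ ≤ (1 - γ) / 2 := by
      apply le_of_sq_le_sq _ (by linarith)
      rw [norm_sub_sq_real, he, hξ i]
      nlinarith
    have h2 : inner ℝ e (ξ j) = inner ℝ (ξ i) (ξ j) + inner ℝ (e - ξ i) (ξ j) := by
      rw [inner_sub_left]; ring
    have h3 : inner ℝ (e - ξ i) (ξ j) ≤ (1 - γ) / 2 := by
      have := real_inner_le_norm (e - ξ i) (ξ j)
      rw [hξ j, mul_one] at this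
      exact this.trans h1
    have h4 := hsep i j (Ne.symm hj)
    rw [hq, h2]
    linarith
  set q' := 1 - τ / 2 with hq'
  have hq'0 : 0 < q' := by rw [hq']; linarith
  have hq'1 : q' < 1 := by rw [hq']; linarith
  -- asymptotic conditions
  have ev1 : ∀ᶠ M : ℕ in atTop, mean M e0 < w0 / 2 :=
    (mean_tendsto (by omega) he0).eventually (gt_mem_nhds (by positivity))
  have ev2 := mean_lower he0 hq0 hq1 2
  have ev3 := mean_lower he0 hq'0 hq'1 2
  have ev4 := mean_lower he0 hq0 hq1 (4 * ((n : ℝ) + 1) / (w0 * q))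
  filter_upwards [ev1, ev2, ev3, ev4, eventually_ge_atTop 1] with M h1 h2 h3 h4 hM
  set m := mean M e0 with hm
  have hMR : (1 : ℝ) ≤ M := by exact_mod_cast hM
  have hqM : q ^ M ≤ m / 2 := by
    have : 0 < q ^ M := pow_pos hq0 M
    nlinarith
  have hq'M : q' ^ M ≤ m / 2 := by
    have : 0 < q' ^ M := pow_pos hq'0 M
    nlinarith
  have hm0 : 0 < m := by
    have : 0 < q ^ M := pow_pos hq0 M
    linarith
  refine ⟨?_, fun i => by linarith [hi₁ i]⟩
  set ε1 := 2 * q ^ (M - 1) / (w0 * m) with hε1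
  have hε10 : 0 ≤ ε1 := by positivity
  have hε12 : ε1 * (1 + n * M) ≤ 1 / 2 := by
    have e1 : 4 * ((n : ℝ) + 1) / (w0 * q) * ((M : ℝ) + 1) * q ^ M =
        4 * ((n : ℝ) + 1) * ((M : ℝ) + 1) * q ^ (M - 1) / w0 := by
      have : q ^ M = q ^ (M - 1) * q := by
        rw [← pow_succ]; congr 1; omega
      rw [this]
      field_simp
    rw [e1, div_le_iff₀ hw0] at h4
    rw [hε1, div_mul_eq_mul_div, div_le_iff₀ (by positivity)]
    have e2 : (1 + n * M : ℝ) ≤ ((n : ℝ) + 1) * ((M : ℝ) + 1) := by nlinarith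
    have e3 : 0 < q ^ (M - 1) := pow_pos hq0 _
    nlinarith
  choose bb hbb using fun i => exists_basis hn0 (hξ i)
  set i0 : Fin n := ⟨0, hn0⟩ with hi0
  have hrepr : ∀ i, ∀ e : EuclideanSpace ℝ (Fin n), (bb i).repr e i0 = inner ℝ e (ξ i) := by
    intro i e
    rw [OrthonormalBasis.repr_apply_apply, hbb i, real_inner_comm]
  let S : ι × Fin n × Bool → Set (EuclideanSpace ℝ (Fin n)) := fun p =>
    {e | p.2.1 ≠ i0 ∧ ‖e‖ = 1 ∧ Phi w ξ M e = m ∧ 1 - τ ≤ inner ℝ e (ξ p.1) ∧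
      Real.sqrt (1 - (inner ℝ e (ξ p.1)) ^ 2) / n ≤
        (if p.2.2 then 1 else -1) * (bb p.1).repr e p.2.1}
  have hcover : {e : EuclideanSpace ℝ (Fin n) | ‖e‖ = 1 ∧ Phi w ξ M e = m} ⊆ ⋃ p, S p := by
    rintro e ⟨he, hPhi⟩
    obtain ⟨i, hi⟩ : ∃ i, 1 - τ ≤ inner ℝ e (ξ i) := by
      by_contra hcon
      push Not at hcon
      have : Phi w ξ M e ≤ q' ^ M := by
        unfold Phi
        calc _ ≤ ∑ i, w i * q' ^ M := by
              refine Finset.sum_le_sum fun i _ => ?_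
              refine mul_le_mul_of_nonneg_left ?_ (hw i).le
              refine pow_le_pow_left₀ (base_bd he (hξ i)).1 ?_ M
              rw [hq']
              linarith [hcon i]
          _ = q' ^ M := by rw [← Finset.sum_mul, hw1, one_mul]
      rw [hPhi] at this
      linarith
    obtain ⟨l, hl, hl2⟩ := exists_coord (by omega) (bb i) he i0
    rw [hrepr] at hl2
    rw [mem_iUnion]
    rcases le_total 0 ((bb i).repr e l) with h | h
    · refine ⟨(i, l, true), hl, he, hPhi, hi, ?_⟩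
      rw [abs_of_nonneg h] at hl2
      simpa using hl2
    · refine ⟨(i, l, false), hl, he, hPhi, hi, ?_⟩
      rw [abs_of_nonpos h] at hl2
      simpa using hl2
  set K : ℝ≥0 := (4 * (n : ℝ≥0) ^ 2) with hK
  have hKR : (K : ℝ) = 4 * (n : ℝ) ^ 2 := by rw [hK]; push_cast; ring
  have hpiece : ∀ p, Measure.hausdorffMeasure ((n - 2 : ℕ) : ℝ) (S p) ≤
      (K : ℝ≥0∞) ^ (n - 2) * ENNReal.ofReal (2 * r) := by
    rintro ⟨i, l, sg⟩
    by_cases hl : l ≠ i0
    swap
    · have : S (i, l, sg) = ∅ := by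
        ext e
        simp only [S, mem_ofPred_eq, mem_empty_iff_false, iff_false]
        rintro ⟨h, -⟩
        exact hl h
      rw [this, measure_empty]
      exact zero_le
    have hsq : ∀ e : EuclideanSpace ℝ (Fin n), ‖e‖ = 1 → 0 ≤ 1 - (inner ℝ e (ξ i)) ^ 2 := by
      intro e he
      have := abs_le_one_iff_mul_self_le_one.1 (inner_bd he (hξ i))
      nlinarith
    have hnp : ∀ e ∈ S (i, l, sg), _ := fun e he =>
      nodal_point hw hw1 hξ hw0 hi₁ hM hq0 h1.le hqM hm0 hτ1 i (hcap i) he.2.1 he.2.2.1 he.2.2.2.1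
    refine (piece_measure (r := r) (K := K) hl (bb i) hr0.le ?_ ?_).trans ?_
    · intro e he mm
      have he1 := he.2.1
      have hc := he.2.2.2.1
      simp only at hc
      apply abs_le_of_sq_le_sq _ hr0.le
      have hsum : 1 = ∑ m, ((bb i).repr e m) ^ 2 := by
        have h := EuclideanSpace.norm_sq_eq ((bb i).repr e)
        rw [(bb i).repr.norm_map, he1, one_pow] at h
        rw [h]
        refine Finset.sum_congr rfl fun m _ => ?_
        rw [Real.norm_eq_abs, sq_abs]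
      have e1 : 1 - ((bb i).repr e i0) ^ 2 =
          ∑ m ∈ Finset.univ.erase i0, ((bb i).repr e m) ^ 2 := by
        rw [hsum, ← Finset.add_sum_erase _ _ (Finset.mem_univ i0)]
        ring
      have e2 := Finset.single_le_sum (f := fun m : Fin n => ((bb i).repr e m) ^ 2)
        (s := Finset.univ.erase i0) (fun i _ => sq_nonneg _)
        (Finset.mem_erase.2 ⟨mm.2.1, Finset.mem_univ _⟩)
      simp only at e2
      rw [← e1, hrepr] at e2
      refine e2.trans (le_trans ?_ hτr)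
      have htbd := abs_le.1 (inner_bd he1 (hξ i))
      nlinarith [htbd.2]
    · intro e he e' he' P hP0 hP
      rw [hKR]
      have k1 := hnp e he
      have k2 := hnp e' he'
      have k3 := nodal_pair hw hw1 hξ hw0 hi₁ hM hq0 hm0 i (hcap i) he.2.1 he'.2.1
        he.2.2.1 he'.2.2.1 he.2.2.2.1 he'.2.2.2.1 k1.2 k2.2
      refine piece_bound hl (bb i) (sg := if sg then 1 else -1) (ε1 := ε1) ?_ hM hε10 hε12
        he.2.1 he'.2.1 (Real.sqrt_nonneg (1 - (inner ℝ e (ξ i)) ^ 2))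
        (Real.sqrt_nonneg (1 - (inner ℝ e' (ξ i)) ^ 2)) ?_ ?_ k1.1 k2.1 he.2.2.2.2 he'.2.2.2.2
        ?_ hP0 hP
      · split_ifs
        · exact abs_one
        · rw [abs_neg, abs_one]
      · rw [hrepr, Real.sq_sqrt (hsq e he.2.1)]
      · rw [hrepr, Real.sq_sqrt (hsq e' he'.2.1)]
      · rw [hrepr, hrepr]
        exact k3
    · refine mul_le_mul_right (ENNReal.ofReal_le_ofReal ?_) _
      have e1 : (2 * r) ^ (n - 2) ≤ (2 * r) ^ 1 :=
        pow_le_pow_of_le_one (by positivity) (by linarith) (by omega)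
      rwa [pow_one] at e1
  calc Measure.hausdorffMeasure ((n - 2 : ℕ) : ℝ)
        {e : EuclideanSpace ℝ (Fin n) | ‖e‖ = 1 ∧ Phi w ξ M e = m}
      ≤ Measure.hausdorffMeasure ((n - 2 : ℕ) : ℝ) (⋃ p, S p) := measure_mono hcover
    _ ≤ ∑ p, Measure.hausdorffMeasure ((n - 2 : ℕ) : ℝ) (S p) := measure_iUnion_fintype_le _ _
    _ ≤ ∑ _p : ι × Fin n × Bool, (K : ℝ≥0∞) ^ (n - 2) * ENNReal.ofReal (2 * r) :=
        Finset.sum_le_sum fun p _ => hpiece p
    _ = ENNReal.ofReal (A * (2 * r)) := by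
        have f1 : ENNReal.ofReal A = (Fintype.card (ι × Fin n × Bool) : ℝ≥0∞) *
            (K : ℝ≥0∞) ^ (n - 2) := by
          rw [hA, ENNReal.ofReal_mul (by positivity), ENNReal.ofReal_natCast,
            ENNReal.ofReal_pow (by positivity), ← hKR, ENNReal.ofReal_coe_nnreal]
        rw [Finset.sum_const, Finset.card_univ, nsmul_eq_mul, ENNReal.ofReal_mul hA0, f1]
        ring
    _ < ε := hrε

end H32R3.ND
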