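import Pool.Agent.H32R3.ND.Lap

set_option autoImplicit false

open Set Filter Topology InnerProductSpace Laplacian Polynomial

namespace H32R3.ND

variable {n : ℕ}

/-- coefficients of the zonal harmonic of degree `b` -/
noncomputable def zc (n b : ℕ) : ℕ → ℝ
  | 0 => 1
  | a + 1 => - zc n b a * (((b : ℝ) - 2 * a) * ((b : ℝ) - 2 * a - 1)) /
      (2 * ((a : ℝ) + 1) * (2 * a + n + 2 * ((b : ℝ) - 2 * a - 2)))

theorem zc_zero (n b : ℕ) : zc n b 0 = 1 := rfl

theorem zc_succ (hn : 0 < n) {b a : ℕ} (h : 2 * a + 2 ≤ b) :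
    zc n b (a + 1) * (2 * ((a : ℝ) + 1) * (2 * a + n + 2 * ((b : ℝ) - 2 * a - 2))) =
      - zc n b a * (((b : ℝ) - 2 * a) * ((b : ℝ) - 2 * a - 1)) := by
  rw [zc]
  apply div_mul_cancel₀
  have h1 : (2 * (a : ℝ) + 2) ≤ b := by exact_mod_cast h
  have h2 : (0 : ℝ) < n := by exact_mod_cast hn
  have h3 : (0 : ℝ) ≤ a := Nat.cast_nonneg a
  have : 0 < 2 * (a : ℝ) + n + 2 * ((b : ℝ) - 2 * a - 2) := by linarith
  positivity

/-- the zonal harmonic of degree `b` with pole `ξ` -/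
noncomputable def Z (n b : ℕ) (ξ x : EuclideanSpace ℝ (Fin n)) : ℝ :=
  ∑ a ∈ Finset.range (b / 2 + 1), zc n b a * mono ξ a (b - 2 * a) x

theorem Z_contDiff (b : ℕ) (ξ : EuclideanSpace ℝ (Fin n)) {m : WithTop ℕ∞} :
    ContDiff ℝ m (Z n b ξ) := by
  unfold Z
  exact ContDiff.sum fun a _ => contDiff_const.mul (mono_contDiff ξ a _)

theorem Z_homog (b : ℕ) (ξ x : EuclideanSpace ℝ (Fin n)) (l : ℝ) :
    Z n b ξ (l • x) = l ^ b * Z n b ξ x := by
  unfold Z
  rw [Finset.mul_sum]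
  refine Finset.sum_congr rfl fun a ha => ?_
  have ha' : 2 * a ≤ b := by
    have := Finset.mem_range.1 ha
    omega
  unfold mono
  rw [norm_smul, inner_smul_left, mul_pow, mul_pow, mul_pow]
  have h1 : (‖l‖ ^ 2) ^ a * ((starRingEnd ℝ) l) ^ (b - 2 * a) = l ^ b := by
    rw [Real.norm_eq_abs, sq_abs]
    simp only [conj_trivial]
    rw [← pow_mul, ← pow_add]
    congr 1
    omega
  rw [← h1]
  ring

theorem sum_smul_laplacian {ι : Type*} (s : Finset ι) (c : ι → ℝ)
    (f : ι → EuclideanSpace ℝ (Fin n) → ℝ) (hf : ∀ i ∈ s, ContDiff ℝ 2 (f i))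
    (x : EuclideanSpace ℝ (Fin n)) :
    Δ (fun y => ∑ i ∈ s, c i * f i y) x = ∑ i ∈ s, c i * Δ (f i) x := by
  classical
  induction s using Finset.induction_on with
  | empty => simp
  | insert a s ha ih =>
    have h1 : (fun y => ∑ i ∈ insert a s, c i * f i y) =
        (c a • f a) + fun y => ∑ i ∈ s, c i * f i y := by
      ext y
      rw [Finset.sum_insert ha]
      simp
    have hfa : ContDiffAt ℝ 2 (f a) x := (hf a (Finset.mem_insert_self a s)).contDiffAt
    have hfs : ContDiffAt ℝ 2 (fun y => ∑ i ∈ s, c i * f i y) x :=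
      (ContDiff.sum fun i hi => contDiff_const.mul (hf i (Finset.mem_insert_of_mem hi))).contDiffAt
    have hfa' : ContDiffAt ℝ 2 (c a • f a) x := hfa.const_smul (c a)
    rw [h1, hfa'.laplacian_add hfs, laplacian_smul _ hfa,
      ih (fun i hi => hf i (Finset.mem_insert_of_mem hi)), Finset.sum_insert ha]
    simp

theorem Z_laplacian (hn : 0 < n) (b : ℕ) {ξ : EuclideanSpace ℝ (Fin n)} (hξ : ‖ξ‖ = 1)
    (x : EuclideanSpace ℝ (Fin n)) : Δ (Z n b ξ) x = 0 := by
  have h0 : Z n b ξ = fun y => ∑ a ∈ Finset.range (b / 2 + 1), zc n b a * mono ξ a (b - 2 * a) y := rfl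
  rw [h0, sum_smul_laplacian _ _ _ (fun a _ => mono_contDiff ξ a _)]
  set T1 : ℕ → ℝ := fun a => zc n b a * (2 * a * (2 * a - 2 + n + 2 * ((b - 2 * a : ℕ) : ℝ))
    * mono ξ (a - 1) (b - 2 * a) x) with hT1
  set T2 : ℕ → ℝ := fun a => zc n b a * (((b - 2 * a : ℕ) : ℝ) * (((b - 2 * a : ℕ) : ℝ) - 1)
    * mono ξ a (b - 2 * a - 2) x) with hT2
  have h1 : ∀ a, zc n b a * Δ (mono ξ a (b - 2 * a)) x = T1 a + T2 a := by
    intro a
    rw [mono_laplacian hξ, hT1, hT2]
    ring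
  rw [Finset.sum_congr rfl fun a _ => h1 a, Finset.sum_add_distrib, Finset.sum_range_succ',
    Finset.sum_range_succ T2]
  have h2 : T1 0 = 0 := by simp [hT1]
  have h3 : T2 (b / 2) = 0 := by
    have : b - 2 * (b / 2) = 0 ∨ b - 2 * (b / 2) = 1 := by omega
    rcases this with h | h
    · simp [hT2, h]
    · simp [hT2, h]
  have h4 : ∀ a ∈ Finset.range (b / 2), T1 (a + 1) = - T2 a := by
    intro a ha
    have ha' : 2 * a + 2 ≤ b := by
      have := Finset.mem_range.1 ha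
      omega
    have e1 : ((b - 2 * (a + 1) : ℕ) : ℝ) = (b : ℝ) - 2 * a - 2 := by
      rw [Nat.cast_sub (by omega)]; push_cast; ring
    have e2 : ((b - 2 * a : ℕ) : ℝ) = (b : ℝ) - 2 * a := by
      rw [Nat.cast_sub (by omega)]; push_cast; ring
    have e3 : b - 2 * (a + 1) = b - 2 * a - 2 := by omega
    have key := zc_succ hn ha'
    simp only [hT1, hT2]
    rw [e1, e2, e3, Nat.add_sub_cancel]
    push_cast
    linear_combination mono ξ a (b - 2 * a - 2) x * key
  rw [h2, h3, Finset.sum_congr rfl h4, Finset.sum_neg_distrib]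
  ring

/-- the polynomial giving the zonal harmonic on the unit sphere -/
noncomputable def Lp (n b : ℕ) : ℝ[X] :=
  ∑ a ∈ Finset.range (b / 2 + 1), C (zc n b a) * X ^ (b - 2 * a)

theorem Lp_coeff_gt (n : ℕ) {b m : ℕ} (h : b < m) : (Lp n b).coeff m = 0 := by
  unfold Lp
  rw [finsetSum_coeff]
  refine Finset.sum_eq_zero fun a _ => ?_
  rw [coeff_C_mul, coeff_X_pow, if_neg (by omega), mul_zero]

theorem Lp_coeff_self (n b : ℕ) : (Lp n b).coeff b = 1 := by
  unfold Lp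
  rw [finsetSum_coeff, Finset.sum_eq_single 0]
  · rw [coeff_C_mul, coeff_X_pow, if_pos (by omega), zc_zero, mul_one]
  · intro a ha h0
    have := Finset.mem_range.1 ha
    rw [coeff_C_mul, coeff_X_pow, if_neg (by omega), mul_zero]
  · intro h
    simp at h

theorem exists_expansion (n : ℕ) : ∀ (N : ℕ) (p : ℝ[X]), (∀ m, N ≤ m → p.coeff m = 0) →
    ∃ β : ℕ → ℝ, p = ∑ b ∈ Finset.range N, C (β b) * Lp n b := by
  intro N
  induction N with
  | zero =>
    intro p hp
    refine ⟨0, ?_⟩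
    ext m
    simpa using hp m (Nat.zero_le m)
  | succ N ih =>
    intro p hp
    obtain ⟨β, hβ⟩ := ih (p - C (p.coeff N) * Lp n N) (by
      intro m hm
      rw [coeff_sub, coeff_C_mul]
      rcases Nat.eq_or_lt_of_le hm with h | h
      · rw [← h, Lp_coeff_self, mul_one, sub_self]
      · rw [hp m h, Lp_coeff_gt n h, mul_zero, sub_zero])
    refine ⟨fun b => if b = N then p.coeff N else β b, ?_⟩
    rw [Finset.sum_range_succ]
    beta_reduce
    rw [if_pos rfl]
    have : ∑ b ∈ Finset.range N, C (if b = N then p.coeff N else β b) * Lp n b =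
        ∑ b ∈ Finset.range N, C (β b) * Lp n b := by
      refine Finset.sum_congr rfl fun b hb => ?_
      rw [if_neg (by have := Finset.mem_range.1 hb; omega)]
    rw [this, ← hβ]
    ring

theorem Lp_eval (n b : ℕ) (t : ℝ) :
    (Lp n b).eval t = ∑ a ∈ Finset.range (b / 2 + 1), zc n b a * t ^ (b - 2 * a) := by
  unfold Lp
  rw [eval_finsetSum]
  simp

theorem Z_half (b : ℕ) (ξ : EuclideanSpace ℝ (Fin n)) {x : EuclideanSpace ℝ (Fin n)}
    (hx : ‖x‖ = 1 / 2) : (2 : ℝ) ^ b * Z n b ξ x = (Lp n b).eval (2 * inner ℝ x ξ) := by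
  rw [Lp_eval]
  unfold Z mono
  rw [Finset.mul_sum]
  refine Finset.sum_congr rfl fun a ha => ?_
  have ha' : 2 * a ≤ b := by
    have := Finset.mem_range.1 ha
    omega
  rw [hx, mul_pow]
  have h1 : (2 : ℝ) ^ b * ((1 / 2 : ℝ) ^ 2) ^ a = 2 ^ (b - 2 * a) := by
    have : b = (b - 2 * a) + 2 * a := by omega
    conv_lhs => rw [this]
    rw [pow_add, ← pow_mul, mul_assoc, ← mul_pow]
    norm_num
  rw [← h1]
  ring

end H32R3.ND
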